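import Pool.Agent.Lib.MP_e6d6ae_co.Seinsche

/-!
# Majority 3-partitions when one colour class is a cograph

Let the edges of the complete graph on `V` be coloured with two colours such that one colour class is
a cograph, i.e. has no induced path on four vertices (then the other class is a cograph, too). There is
a majority 3-partition, with parts of at most half the number of vertices.

Proof. By Seinsche's theorem each set of at least two vertices is a join `A ∘ B` (all edges between
`A` and `B` have one colour). If `A` and `B` have at least two vertices then good partitions of `A` and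
`B` are put together. The case of a single vertex `z` joined to the rest `G` by a colour `t` needs a
stronger induction hypothesis (`NN`): for such a `z` there is a good partition of `G` and `z` in which
the part of `z` and one further part are small, unless all edges of `G` have the other colour.
-/

set_option autoImplicit false

open Finset

namespace Pool.Agent.Results.MP_e6d6ae_co.Cographs

/-- `colDeg c a X v`: the number of edges `vx` of colour `a` with `x ∈ X` in the complete graph on
`V` with the edge colouring `c`; the values of `c` on the diagonal are not used -/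
noncomputable def colDeg {V : Type*} (c : Sym2 V → Fin 2) (a : Fin 2) (X : Set V) (v : V) : ℕ :=
  {x | x ∈ X ∧ x ≠ v ∧ c s(v, x) = a}.ncard

/-- the partition into the sets `f ⁻¹ {i}` is a majority partition: for each colour `a`, every
vertex `v` has at least as many edges of the colour `a` to the other parts as to its own part -/
def IsMajority {V : Type*} (c : Sym2 V → Fin 2) {k : ℕ} (f : V → Fin k) : Prop :=
  ∀ (a : Fin 2) (v : V), colDeg c a {x | f x = f v} v ≤ colDeg c a {x | f x ≠ f v} v

/-- the graph of the edges of colour `a` is a cograph: it has no induced path on four vertices -/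
def IsCograph {V : Type*} (c : Sym2 V → Fin 2) (a : Fin 2) : Prop :=
  ∀ w x y z : V, w ≠ x → w ≠ y → w ≠ z → x ≠ y → x ≠ z → y ≠ z →
    ¬ (c s(w, x) = a ∧ c s(x, y) = a ∧ c s(y, z) = a ∧ c s(w, y) ≠ a ∧ c s(w, z) ≠ a ∧ c s(x, z) ≠ a)

open Pool.Agent.Lib.MP_e6d6ae_co

/-- the excess is the number of edges that leave the part minus the number of those inside -/
theorem ex_eq {V : Type*} [Fintype V] [DecidableEq V] (b : V → V → Bool) (f : V → Fin 3) (t : Bool)
    (v : V) : ex b univ f t v =
      ((univ.filter fun x => f x ≠ f v ∧ x ≠ v ∧ b v x = t).card : ℤ) -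
        ((univ.filter fun x => f x = f v ∧ x ≠ v ∧ b v x = t).card : ℤ) := by
  unfold ex
  rw [Finset.card_filter, Finset.card_filter]
  push_cast
  rw [← Finset.sum_sub_distrib]
  apply Finset.sum_congr rfl
  intro w _
  by_cases h1 : w = v
  · simp [h1]
  · by_cases h2 : b v w = t
    · by_cases h3 : f w = f v
      · simp [h1, h2, h3]
      · simp [h1, h2, h3]
    · simp [h1, h2]

/-- If one colour class is a cograph then there is a majority 3-partition; if there are at least two
vertices, its parts have at most half of them. -/
theorem result {V : Type*} [Fintype V] (c : Sym2 V → Fin 2) (a : Fin 2) (h : IsCograph c a) :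
    ∃ f : V → Fin 3, IsMajority c f ∧
      (2 ≤ Fintype.card V → ∀ i, 2 * {v | f v = i}.ncard ≤ Fintype.card V) := by
  classical
  rcases Nat.lt_or_ge (Fintype.card V) 2 with h1 | h2
  · refine ⟨fun _ => 0, fun a' v => ?_, fun h => by omega⟩
    have hsub : Subsingleton V := Fintype.card_le_one_iff_subsingleton.mp (by omega)
    have : {x | x ∈ {x : V | (0 : Fin 3) = 0} ∧ x ≠ v ∧ c s(v, x) = a'} = ∅ := by
      ext x
      simp only [Set.mem_ofPred_eq, Set.mem_empty_iff_false, iff_false]
      rintro ⟨-, h, -⟩
      exact h (Subsingleton.elim _ _)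
    unfold colDeg
    rw [this, Set.ncard_empty]
    exact Nat.zero_le _
  set b : V → V → Bool := fun u v => decide (c s(u, v) = a) with hb
  have hbt : ∀ u v, b u v = true ↔ c s(u, v) = a := fun u v => by simp [hb]
  have hbf : ∀ u v, b u v = false ↔ c s(u, v) ≠ a := fun u v => by simp [hb]
  have hs : ∀ u v, b u v = b v u := fun u v => by simp only [hb]; rw [Sym2.eq_swap]
  have hP : ∀ (s : Bool) (w x y z : V), w ≠ x → w ≠ y → w ≠ z → x ≠ y → x ≠ z → y ≠ z →
      b w x = s → b x y = s → b y z = s → b w y = !s → b w z = !s → b x z = !s → False := by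
    intro s w x y z n1 n2 n3 n4 n5 n6 h1 h2 h3 h4 h5 h6
    cases s
    · -- the complementary path y, w, z, x
      simp only [Bool.not_false] at h4 h5 h6
      refine h y w z x n2.symm n6 n4.symm n3 n1 n5.symm ⟨?_, ?_, ?_, ?_, ?_, ?_⟩
      · rw [← hbt, hs]; exact h4
      · rw [← hbt]; exact h5
      · rw [← hbt, hs]; exact h6
      · rw [← hbf]; exact h3
      · rw [← hbf, hs]; exact h2
      · rw [← hbf]; exact h1
    · simp only [Bool.not_true] at h4 h5 h6
      exact h w x y z n1 n2 n3 n4 n5 n6 ⟨(hbt _ _).mp h1, (hbt _ _).mp h2, (hbt _ _).mp h3,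
        (hbf _ _).mp h4, (hbf _ _).mp h5, (hbf _ _).mp h6⟩
  obtain ⟨n0, n1, n2, ⟨f, ⟨c0, c1, c2⟩, hf⟩, e0, e1, e2⟩ :=
    exists_P0 hs (seinsche hs hP) univ (by rw [Finset.card_univ]; exact h2)
  have hex : ∀ t v, 0 ≤ ex b univ f t v := by
    intro t v
    have h := hf v (Finset.mem_univ v)
    have h' : ∀ t', (0 ≤ ex b univ f true v ∧ 0 ≤ ex b univ f (!true) v) → 0 ≤ ex b univ f t' v := by
      intro t' hh
      cases t'
      · exact hh.2
      · exact hh.1
    have h012 : f v = 0 ∨ f v = 1 ∨ f v = 2 := by
      generalize f v = i
      fin_cases i <;> simp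
    rcases h012 with h0 | h0 | h0
    · exact h' t (h.1 h0)
    · exact h' t (h.2.1 h0)
    · exact h' t (h.2.2 h0)
  refine ⟨f, fun a' v => ?_, fun _ i => ?_⟩
  · obtain ⟨t, ht⟩ : ∃ t, ∀ x, c s(v, x) = a' ↔ b v x = t := by
      by_cases ha : a' = a
      · exact ⟨true, fun x => by rw [hbt, ha]⟩
      · refine ⟨false, fun x => ?_⟩
        rw [hbf]
        constructor
        · intro h h'; exact ha (h.symm.trans h')
        · intro h
          omega
    have h1 := hex t v
    rw [ex_eq] at h1
    have e1 : colDeg c a' {x | f x = f v} v =
        (univ.filter fun x => f x = f v ∧ x ≠ v ∧ b v x = t).card := by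
      unfold colDeg
      rw [← Set.ncard_coe_finset]
      congr 1
      ext x
      simp [ht]
    have e2 : colDeg c a' {x | f x ≠ f v} v =
        (univ.filter fun x => f x ≠ f v ∧ x ≠ v ∧ b v x = t).card := by
      unfold colDeg
      rw [← Set.ncard_coe_finset]
      congr 1
      ext x
      simp [ht]
    rw [e1, e2]
    omega
  · have hn := cnt_sum univ f
    rw [Finset.card_univ] at hn
    have hc : ({v | f v = i}.ncard : ℤ) = cnt univ f i := by
      unfold cnt
      rw [← Set.ncard_coe_finset]
      congr 2
      ext x
      simp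
    have h012 : i = 0 ∨ i = 1 ∨ i = 2 := by
      fin_cases i <;> simp
    have : 2 * cnt univ f i ≤ (Fintype.card V : ℤ) := by
      rcases h012 with rfl | rfl | rfl <;> omega
    omega

end Pool.Agent.Results.MP_e6d6ae_co.Cographs
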