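import Pool.Agent.Lib.MP_e6d6ae_co.Prof

/-!
# Majority 3-partitions when one colour class is a forest

Let the edges of the complete graph on `V` be coloured with two colours such that the edges of one
colour form a forest. Then there is a majority 3-partition in which all edges of this colour go
between different parts.

Proof by induction: two vertices `u`, `w` which have together at most one neighbour in the rest of the
forest are removed and are put into the two parts which do not contain this neighbour. The induction
hypothesis is `Good`.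
-/

set_option autoImplicit false
set_option linter.unusedSectionVars false

open Finset

namespace Pool.Agent.Results.MP_e6d6ae_co.Forests

/-- `colDeg c a X v`: the number of edges `vx` of colour `a` with `x ∈ X` in the complete graph on
`V` with the edge colouring `c`; the values of `c` on the diagonal are not used -/
noncomputable def colDeg {V : Type*} (c : Sym2 V → Fin 2) (a : Fin 2) (X : Set V) (v : V) : ℕ :=
  {x | x ∈ X ∧ x ≠ v ∧ c s(v, x) = a}.ncard

/-- the partition into the sets `f ⁻¹ {i}` is a majority partition: for each colour `a`, every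
vertex `v` has at least as many edges of the colour `a` to the other parts as to its own part -/
def IsMajority {V : Type*} (c : Sym2 V → Fin 2) {k : ℕ} (f : V → Fin k) : Prop :=
  ∀ (a : Fin 2) (v : V), colDeg c a {x | f x = f v} v ≤ colDeg c a {x | f x ≠ f v} v

/-- the graph of the edges of colour `a` -/
def colGraph {V : Type*} (c : Sym2 V → Fin 2) (a : Fin 2) : SimpleGraph V where
  Adj u v := u ≠ v ∧ c s(u, v) = a
  symm := ⟨fun u v h => ⟨h.1.symm, by rw [Sym2.eq_swap]; exact h.2⟩⟩
  loopless := ⟨fun _ h => h.1 rfl⟩

open Pool.Agent.Lib.MP_e6d6ae_co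

/-- a finite acyclic graph has a vertex with at most one neighbour -/
theorem exists_leaf {W : Type*} [Finite W] [Nonempty W] (G : SimpleGraph W) (h : G.IsAcyclic) :
    ∃ u, ∀ w w', G.Adj u w → G.Adj u w' → w = w' := by
  have : Finite G.edgeSet := inferInstance
  obtain ⟨u, v, p, hp, hmax⟩ := SimpleGraph.Walk.exists_isPath_forall_isPath_length_le_length G
  by_cases hnil : p.Nil
  · refine ⟨u, fun w w' hw _ => ?_⟩
    exfalso
    have h0 : p.length = 0 := SimpleGraph.Walk.length_eq_zero_iff.mpr hnil
    have hp1 : (SimpleGraph.Walk.cons hw (SimpleGraph.Walk.nil : G.Walk w w)).IsPath := by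
      rw [SimpleGraph.Walk.cons_isPath_iff]
      refine ⟨SimpleGraph.Walk.IsPath.nil, ?_⟩
      simpa using hw.ne
    have := hmax _ _ _ hp1
    simp [h0] at this
  · have key : ∀ w, G.Adj u w → w = p.snd := by
      intro w hadj
      apply h.eq_snd_of_adj_start hp hadj
      have : ¬(p.cons hadj.symm).IsPath := by
        intro hq
        have := hmax _ _ _ hq
        rw [SimpleGraph.Walk.length_cons] at this
        omega
      by_contra hcon
      exact this ((SimpleGraph.Walk.cons_isPath_iff _ _).mpr ⟨hp, hcon⟩)
    exact ⟨u, fun w w' hw hw' => (key w hw).trans (key w' hw').symm⟩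

section

variable {V : Type*} [DecidableEq V] (r : V → V → Prop) [DecidableRel r]

/-- the number of neighbours in `G` -/
def dg (G : Finset V) (v : V) : ℤ := ((G.filter fun w => r v w).card : ℤ)

/-- the induction hypothesis -/
def Good (G : Finset V) (f : V → Fin 3) : Prop :=
  (∀ u ∈ G, ∀ v ∈ G, r u v → f u ≠ f v) ∧
    (∀ v ∈ G, 2 * cnt G f (f v) + dg r G v ≤ (G.card : ℤ) + 1) ∧
    ∀ i, 2 * cnt G f i ≤ (G.card : ℤ)

variable {r}

theorem cnt_insert {G : Finset V} {u : V} (hu : u ∉ G) (f : V → Fin 3) (i : Fin 3) :
    cnt (insert u G) f i = cnt G f i + if f u = i then 1 else 0 := by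
  unfold cnt
  rw [Finset.filter_insert]
  split_ifs with h
  · rw [Finset.card_insert_of_notMem (by simp [hu])]; push_cast; rfl
  · simp

theorem dg_insert {G : Finset V} {u : V} (hu : u ∉ G) (v : V) :
    dg r (insert u G) v = dg r G v + if r v u then 1 else 0 := by
  unfold dg
  rw [Finset.filter_insert]
  split_ifs with h
  · rw [Finset.card_insert_of_notMem (by simp [hu])]; push_cast; rfl
  · simp

theorem Good.congr {G : Finset V} {f g : V → Fin 3} (h : Good r G f) (hfg : ∀ v ∈ G, f v = g v) :
    Good r G g := by
  obtain ⟨h1, h2, h3⟩ := h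
  refine ⟨fun u hu v hv huv => ?_, fun v hv => ?_, fun i => ?_⟩
  · rw [← hfg u hu, ← hfg v hv]; exact h1 u hu v hv huv
  · rw [← cnt_congr hfg, ← hfg v hv]; exact h2 v hv
  · rw [← cnt_congr hfg]; exact h3 i

/-- adding two vertices -/
theorem Good.ext (hs : ∀ u v, r u v → r v u) (hirr : ∀ u, ¬ r u u) {G : Finset V} {f : V → Fin 3}
    (h : Good r G f) {u w : V} (hu : u ∉ G) (hw : w ∉ G) (huw : u ≠ w) (p q : Fin 3) (hpq : p ≠ q)
    (hn : ∀ v ∈ G, r v u ∨ r v w → f v ≠ p ∧ f v ≠ q)
    (ou : 2 * (cnt G f p + 1) + dg r (insert u (insert w G)) u ≤ (G.card : ℤ) + 3)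
    (ow : 2 * (cnt G f q + 1) + dg r (insert u (insert w G)) w ≤ (G.card : ℤ) + 3) :
    ∃ g, Good r (insert u (insert w G)) g := by
  set g : V → Fin 3 := fun v => if v = u then p else if v = w then q else f v with hg
  have gu : g u = p := by simp [hg]
  have gw : g w = q := by simp [hg, huw.symm]
  have gG : ∀ v ∈ G, f v = g v := by
    intro v hv
    have h1 : v ≠ u := fun h => hu (h ▸ hv)
    have h2 : v ≠ w := fun h => hw (h ▸ hv)
    simp [hg, h1, h2]
  have hG := h.congr gG
  obtain ⟨h1, h2, h3⟩ := hG
  have hu' : u ∉ insert w G := by simp [huw, hu]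
  have hc : ((insert u (insert w G)).card : ℤ) = (G.card : ℤ) + 2 := by
    rw [Finset.card_insert_of_notMem hu', Finset.card_insert_of_notMem hw]; push_cast; ring
  have hcnt : ∀ i, cnt (insert u (insert w G)) g i =
      cnt G g i + (if q = i then 1 else 0) + if p = i then 1 else 0 := by
    intro i
    rw [cnt_insert hu', cnt_insert hw, gu, gw]
  have hcf : ∀ i, cnt G g i = cnt G f i := fun i => (cnt_congr gG i).symm
  have hdg : ∀ v, dg r (insert u (insert w G)) v =
      dg r G v + (if r v w then 1 else 0) + if r v u then 1 else 0 := by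
    intro v
    rw [dg_insert hu', dg_insert hw]
  have hn' : ∀ v ∈ G, r v u ∨ r v w → g v ≠ p ∧ g v ≠ q := by
    intro v hv hr
    rw [← gG v hv]
    exact hn v hv hr
  refine ⟨g, ?_, ?_, ?_⟩
  · intro x hx y hy hxy
    rw [Finset.mem_insert, Finset.mem_insert] at hx hy
    rcases hx with rfl | rfl | hx <;> rcases hy with rfl | rfl | hy
    · exact absurd hxy (hirr _)
    · rw [gu, gw]; exact hpq
    · rw [gu]; exact (hn' y hy (Or.inl (hs _ _ hxy))).1.symm
    · rw [gu, gw]; exact hpq.symm
    · exact absurd hxy (hirr _)
    · rw [gw]; exact (hn' y hy (Or.inr (hs _ _ hxy))).2.symm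
    · rw [gu]; exact (hn' x hx (Or.inl hxy)).1
    · rw [gw]; exact (hn' x hx (Or.inr hxy)).2
    · exact h1 x hx y hy hxy
  · intro v hv
    rw [hc]
    rw [Finset.mem_insert, Finset.mem_insert] at hv
    rcases hv with rfl | rfl | hv
    · rw [hcnt, gu, if_neg hpq.symm, if_pos rfl, hcf]
      linarith
    · rw [hcnt, gw, if_neg hpq, if_pos rfl, hcf]
      linarith
    · have h := h2 v hv
      rw [hcnt, hdg]
      by_cases hr : r v u ∨ r v w
      · obtain ⟨e1, e2⟩ := hn' v hv hr
        rw [if_neg e2.symm, if_neg e1.symm]
        split_ifs <;> linarith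
      · push Not at hr
        rw [if_neg hr.1, if_neg hr.2]
        by_cases e1 : p = g v
        · rw [if_pos e1, if_neg (fun e => hpq (e1.trans e.symm))]; linarith
        · rw [if_neg e1]
          split_ifs <;> linarith
  · intro i
    have h := h3 i
    rw [hc, hcnt]
    by_cases e1 : p = i
    · rw [if_pos e1, if_neg (fun e => hpq (e1.trans e.symm))]; linarith
    · rw [if_neg e1]
      split_ifs <;> linarith

theorem dg_le_one {G : Finset V} {v : V} (h : ∀ w ∈ G, ∀ w' ∈ G, r v w → r v w' → w = w') :
    dg r G v ≤ 1 := by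
  unfold dg
  have : (G.filter fun w => r v w).card ≤ 1 := by
    rw [Finset.card_le_one]
    intro a ha a' ha'
    rw [Finset.mem_filter] at ha ha'
    exact h a ha.1 a' ha'.1 ha.2 ha'.2
  exact_mod_cast this

theorem others (i : Fin 3) : ∃ p q : Fin 3, p ≠ q ∧ i ≠ p ∧ i ≠ q := by
  fin_cases i
  · exact ⟨1, 2, by decide, by decide, by decide⟩
  · exact ⟨0, 2, by decide, by decide, by decide⟩
  · exact ⟨0, 1, by decide, by decide, by decide⟩

theorem cnt_three (G : Finset V) (f : V → Fin 3) {i p q : Fin 3} (h1 : p ≠ q) (h2 : i ≠ p)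
    (h3 : i ≠ q) : cnt G f i + cnt G f p + cnt G f q = (G.card : ℤ) := by
  have h := cnt_sum G f
  rw [← h]
  fin_cases i <;> fin_cases p <;> fin_cases q <;> simp_all <;> linarith

theorem good_exists (hs : ∀ u v, r u v → r v u) (hirr : ∀ u, ¬ r u u)
    (hL : ∀ W : Finset V, W.Nonempty → ∃ v ∈ W, ∀ w ∈ W, ∀ w' ∈ W, r v w → r v w' → w = w') :
    ∀ (n : ℕ) (G : Finset V), G.card = n → 2 ≤ n → ∃ f, Good r G f := by
  intro n
  induction n using Nat.strong_induction_on with
  | _ n ih =>
    intro G hGn hn
    have hdle : ∀ (G : Finset V) (v : V), v ∈ G → dg r G v + 1 ≤ (G.card : ℤ) := by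
      intro G v hv
      unfold dg
      have h1 : (G.filter fun w => r v w) ⊆ G.erase v := by
        intro w hw
        rw [Finset.mem_filter] at hw
        rw [Finset.mem_erase]
        exact ⟨fun h => hirr v (h ▸ hw.2), hw.1⟩
      have h2 := Finset.card_le_card h1
      rw [Finset.card_erase_of_mem hv] at h2
      have h3 := Finset.card_pos.mpr ⟨v, hv⟩
      omega
    -- small cases: an injective `f`
    have hsmall : ∀ f : V → Fin 3, (∀ u ∈ G, ∀ v ∈ G, u ≠ v → f u ≠ f v) → G.card ≤ 3 →
        Good r G f := by
      intro f hf hc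
      have h1 : ∀ i, cnt G f i ≤ 1 := by
        intro i
        unfold cnt
        have : (G.filter fun v => f v = i).card ≤ 1 := by
          rw [Finset.card_le_one]
          intro a ha a' ha'
          rw [Finset.mem_filter] at ha ha'
          by_contra h
          exact hf a ha.1 a' ha'.1 h (ha.2.trans ha'.2.symm)
        exact_mod_cast this
      refine ⟨fun u hu v hv huv => hf u hu v hv (fun h => hirr u (by rw [← h] at huv; exact huv)), ?_, ?_⟩
      · intro v hv
        have := h1 (f v)
        have := hdle G v hv
        omega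
      · intro i
        have := h1 i
        omega
    rcases Nat.lt_or_ge n 4 with h4 | h4
    · rcases Nat.lt_or_ge n 3 with h3 | h3
      · obtain ⟨u, v, huv, rfl⟩ := Finset.card_eq_two.mp (show G.card = 2 by omega)
        refine ⟨fun x => if x = u then 0 else 1, hsmall _ ?_ (by omega)⟩
        intro x hx y hy hxy
        rw [Finset.mem_insert, Finset.mem_singleton] at hx hy
        rcases hx with rfl | rfl <;> rcases hy with rfl | rfl
        · exact absurd rfl hxy
        · simp [huv.symm]
        · simp [huv.symm]
        · exact absurd rfl hxy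
      · obtain ⟨u, v, w, huv, huw, hvw, rfl⟩ := Finset.card_eq_three.mp (show G.card = 3 by omega)
        refine ⟨fun x => if x = u then 0 else if x = v then 1 else 2, hsmall _ ?_ (by omega)⟩
        intro x hx y hy hxy
        simp only [Finset.mem_insert, Finset.mem_singleton] at hx hy
        rcases hx with rfl | rfl | rfl <;> rcases hy with rfl | rfl | rfl
        all_goals first
          | exact absurd rfl hxy
          | simp [huv.symm, huw.symm, hvw.symm]
    -- removing two vertices
    have hrem : ∀ u w, u ∈ G → w ∈ G → u ≠ w → ∃ G' : Finset V, u ∉ G' ∧ w ∉ G' ∧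
        insert u (insert w G') = G ∧ (G'.card : ℤ) + 2 = G.card ∧ ∃ f, Good r G' f := by
      intro u w hu hw huw
      have hw' : w ∈ G.erase u := Finset.mem_erase.mpr ⟨huw.symm, hw⟩
      have c1 := Finset.card_erase_of_mem hu
      have c2 := Finset.card_erase_of_mem hw'
      refine ⟨(G.erase u).erase w, by simp, by simp, ?_, by omega, ?_⟩
      · rw [Finset.insert_erase hw', Finset.insert_erase hu]
      · exact ih ((G.erase u).erase w).card (by omega) _ rfl (by omega)
    have hcl : ∀ v ∈ G, dg r G v ≤ 1 → ∀ w ∈ G, ∀ w' ∈ G, r v w → r v w' → w = w' := by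
      intro v hv h w hw w' hw' hr hr'
      unfold dg at h
      have h' : (G.filter fun w => r v w).card ≤ 1 := by exact_mod_cast h
      rw [Finset.card_le_one] at h'
      exact h' w (by simp [hw, hr]) w' (by simp [hw', hr'])
    by_cases hall : ∀ v ∈ G, dg r G v ≤ 1
    · -- a matching
      obtain ⟨u, w, hu, hw, huw, hnu, hnw⟩ : ∃ u w, u ∈ G ∧ w ∈ G ∧ u ≠ w ∧
          (∀ v ∈ G, v ≠ w → ¬ r v u) ∧ (∀ v ∈ G, v ≠ u → ¬ r v w) := by
        by_cases he : ∃ u ∈ G, ∃ w ∈ G, r u w
        · obtain ⟨u, hu, w, hw, hr⟩ := he
          refine ⟨u, w, hu, hw, fun h => hirr u (by rw [← h] at hr; exact hr), ?_, ?_⟩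
          · intro v hv hvw hvu
            exact hvw (hcl u hu (hall u hu) v hv w hw (hs _ _ hvu) hr)
          · intro v hv hvu hvw
            exact hvu (hcl w hw (hall w hw) v hv u hu (hs _ _ hvw) (hs _ _ hr))
        · push Not at he
          obtain ⟨u, hu, w, hw, huw⟩ := Finset.one_lt_card.mp (show 1 < G.card by omega)
          exact ⟨u, w, hu, hw, huw, fun v hv _ => he v hv u hu, fun v hv _ => he v hv w hw⟩
      obtain ⟨G', hu', hw', hG', hc, f, hf⟩ := hrem u w hu hw huw
      have hsub : ∀ v ∈ G', v ∈ G := fun v hv => by rw [← hG']; simp [hv]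
      rw [← hG']
      have := hf.2.2
      refine hf.ext hs hirr hu' hw' huw 0 1 (by decide) ?_ ?_ ?_
      · intro v hv hr
        exfalso
        rcases hr with h | h
        · exact hnu v (hsub v hv) (fun e => hw' (e ▸ hv)) h
        · exact hnw v (hsub v hv) (fun e => hu' (e ▸ hv)) h
      · rw [hG']
        have := hall u hu
        have := hf.2.2 0
        omega
      · rw [hG']
        have := hall w hw
        have := hf.2.2 1
        omega
    · -- the vertices of degree at least two
      push Not at hall
      obtain ⟨v0, hv0, hv0d⟩ := hall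
      obtain ⟨x, hx, hxl⟩ := hL (G.filter fun v => 1 < dg r G v) ⟨v0, by simp [hv0, hv0d]⟩
      rw [Finset.mem_filter] at hx
      obtain ⟨hxG, hxd⟩ := hx
      -- the leaves at `x`
      set N := G.filter fun w => r x w with hN
      set NL := N.filter fun w => dg r G w ≤ 1 with hNL
      have hNcard : (1 : ℤ) < N.card := hxd
      have hrest : (N.filter fun w => ¬ dg r G w ≤ 1).card ≤ 1 := by
        rw [Finset.card_le_one]
        intro a ha a' ha'
        simp only [hN, Finset.mem_filter] at ha ha'
        refine hxl a ?_ a' ?_ ha.1.2 ha'.1.2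
        · rw [Finset.mem_filter]; exact ⟨ha.1.1, by omega⟩
        · rw [Finset.mem_filter]; exact ⟨ha'.1.1, by omega⟩
      have hsplit := Finset.card_filter_add_card_filter_not (s := N) (fun w => dg r G w ≤ 1)
      rw [← hNL] at hsplit
      have hNLm : ∀ w, w ∈ NL ↔ w ∈ G ∧ r x w ∧ dg r G w ≤ 1 := by
        intro w; simp only [hNL, hN, Finset.mem_filter]; tauto
      by_cases h2 : 1 < NL.card
      · obtain ⟨u, hu, w, hw, huw⟩ := Finset.one_lt_card.mp h2
        rw [hNLm] at hu hw
        obtain ⟨G', hu', hw', hG', hc, f, hf⟩ := hrem u w hu.1 hw.1 huw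
        have hsub : ∀ v ∈ G', v ∈ G := fun v hv => by rw [← hG']; simp [hv]
        obtain ⟨p, q, hpq, hip, hiq⟩ := others (f x)
        rw [← hG']
        refine hf.ext hs hirr hu' hw' huw p q hpq ?_ ?_ ?_
        · intro v hv hr
          have hvx : v = x := by
            rcases hr with h | h
            · exact hcl u hu.1 hu.2.2 v (hsub v hv) x hxG (hs _ _ h) (hs _ _ hu.2.1)
            · exact hcl w hw.1 hw.2.2 v (hsub v hv) x hxG (hs _ _ h) (hs _ _ hw.2.1)
          rw [hvx]
          exact ⟨hip, hiq⟩
        · rw [hG']
          have := hu.2.2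
          have := hf.2.2 p
          omega
        · rw [hG']
          have := hw.2.2
          have := hf.2.2 q
          omega
      · -- exactly one leaf `u` and one further neighbour `y`
        have hNL1 : NL.card = 1 := by omega
        have hN2 : N.card = 2 := by omega
        obtain ⟨u, hu⟩ := Finset.card_eq_one.mp hNL1
        have huN : u ∈ NL := by rw [hu]; simp
        obtain ⟨y, hy⟩ := Finset.card_eq_one.mp (show (N.filter fun w => ¬ dg r G w ≤ 1).card = 1 by
          omega)
        have hyN : y ∈ N.filter fun w => ¬ dg r G w ≤ 1 := by rw [hy]; simp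
        rw [hNLm] at huN
        simp only [hN, Finset.mem_filter] at hyN
        have hnx : ∀ v ∈ G, r x v → v = u ∨ v = y := by
          intro v hv hr
          by_cases hd : dg r G v ≤ 1
          · left
            have : v ∈ NL := by rw [hNLm]; exact ⟨hv, hr, hd⟩
            rw [hu] at this
            simpa using this
          · right
            have : v ∈ N.filter fun w => ¬ dg r G w ≤ 1 := by
              simp only [hN, Finset.mem_filter]; exact ⟨⟨hv, hr⟩, hd⟩
            rw [hy] at this
            simpa using this
        have hxu : x ≠ u := fun h => hirr x (by rw [← h] at huN; exact huN.2.1)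
        obtain ⟨G', hx', hu', hG', hc, f, hf⟩ := hrem x u hxG huN.1 hxu
        have hsub : ∀ v ∈ G', v ∈ G := fun v hv => by rw [← hG']; simp [hv]
        have hyG' : y ∈ G' := by
          have h := hyN.1.1
          rw [← hG', Finset.mem_insert, Finset.mem_insert] at h
          rcases h with h | h | h
          · exact absurd (h ▸ hyN.1.2) (hirr x)
          · exact absurd (h ▸ huN.2.2) hyN.2
          · exact h
        obtain ⟨p, q, hpq, hip, hiq⟩ := others (f y)
        have hdx : dg r G x = 2 := by
          show ((G.filter fun w => r x w).card : ℤ) = 2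
          rw [← hN, hN2]; rfl
        have hy1 := cnt_pos (f := f) hyG'
        have h3 := cnt_three G' f hpq hip hiq
        have main : ∀ p q : Fin 3, p ≠ q → f y ≠ p → f y ≠ q → cnt G' f p ≤ cnt G' f q →
            cnt G' f (f y) + cnt G' f p + cnt G' f q = (G'.card : ℤ) → ∃ g, Good r G g := by
          intro p q hpq hip hiq hle h3
          rw [← hG']
          refine hf.ext hs hirr hx' hu' hxu p q hpq ?_ ?_ ?_
          · intro v hv hr
            have hvy : v = y := by
              rcases hr with h | h
              · rcases hnx v (hsub v hv) (hs _ _ h) with h' | h'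
                · exact absurd (h' ▸ hv) hu'
                · exact h'
              · exfalso
                have := hcl u huN.1 huN.2.2 v (hsub v hv) x hxG (hs _ _ h) (hs _ _ huN.2.1)
                exact hx' (this ▸ hv)
            rw [hvy]
            exact ⟨hip, hiq⟩
          · rw [hG', hdx]
            omega
          · rw [hG']
            have := huN.2.2
            have := hf.2.2 q
            omega
        rcases le_total (cnt G' f p) (cnt G' f q) with h | h
        · exact main p q hpq hip hiq h h3
        · exact main q p hpq.symm hiq hip h (by linarith)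

end

/-- If the edges of the colour `a` form a forest then there is a majority 3-partition in which all
edges of this colour go between different parts. -/
theorem result {V : Type*} [Fintype V] (c : Sym2 V → Fin 2) (a : Fin 2)
    (h : (colGraph c a).IsAcyclic) :
    ∃ f : V → Fin 3, IsMajority c f ∧ ∀ u v, u ≠ v → c s(u, v) = a → f u ≠ f v := by
  classical
  rcases Nat.lt_or_ge (Fintype.card V) 2 with h1 | h2
  · have hsub : Subsingleton V := Fintype.card_le_one_iff_subsingleton.mp (by omega)
    refine ⟨fun _ => 0, fun a' v => ?_, fun u v huv => absurd (Subsingleton.elim u v) huv⟩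
    have : {x | x ∈ {x : V | (0 : Fin 3) = 0} ∧ x ≠ v ∧ c s(v, x) = a'} = ∅ := by
      ext x
      simp only [Set.mem_ofPred_eq, Set.mem_empty_iff_false, iff_false]
      rintro ⟨-, h, -⟩
      exact h (Subsingleton.elim _ _)
    unfold colDeg
    rw [this, Set.ncard_empty]
    exact Nat.zero_le _
  set r : V → V → Prop := (colGraph c a).Adj with hr
  have hs : ∀ u v, r u v → r v u := fun u v huv => huv.symm
  have hirr : ∀ u, ¬ r u u := fun u => (colGraph c a).loopless.irrefl u
  have hL : ∀ W : Finset V, W.Nonempty → ∃ v ∈ W, ∀ w ∈ W, ∀ w' ∈ W, r v w → r v w' → w = w' := by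
    intro W hW
    have hne : Nonempty (W : Set V) := by
      obtain ⟨x, hx⟩ := hW
      exact ⟨⟨x, hx⟩⟩
    obtain ⟨u, hu⟩ := exists_leaf ((colGraph c a).induce (W : Set V)) (h.induce _)
    refine ⟨u.1, u.2, fun w hw w' hw' h1 h2 => ?_⟩
    have := hu ⟨w, hw⟩ ⟨w', hw'⟩ h1 h2
    exact congrArg Subtype.val this
  obtain ⟨f, g1, g2, -⟩ := good_exists hs hirr hL (univ : Finset V).card univ rfl
    (by rw [Finset.card_univ]; exact h2)
  refine ⟨f, ?_, fun u v huv hc => g1 u (Finset.mem_univ u) v (Finset.mem_univ v) ⟨huv, hc⟩⟩
  intro a' v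
  have hg := g2 v (Finset.mem_univ v)
  have e1 : colDeg c a' {x | f x = f v} v = (univ.filter fun x => f x = f v ∧ x ≠ v ∧
      c s(v, x) = a').card := by
    unfold colDeg
    rw [← Set.ncard_coe_finset]
    congr 1
    ext x
    simp
  have e2 : colDeg c a' {x | f x ≠ f v} v = (univ.filter fun x => f x ≠ f v ∧ x ≠ v ∧
      c s(v, x) = a').card := by
    unfold colDeg
    rw [← Set.ncard_coe_finset]
    congr 1
    ext x
    simp
  rw [e1, e2]
  by_cases ha : a' = a
  · subst ha
    have : (univ.filter fun x => f x = f v ∧ x ≠ v ∧ c s(v, x) = a') = ∅ := by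
      rw [Finset.filter_eq_empty_iff]
      rintro x - ⟨h1, h2, h3⟩
      exact g1 v (Finset.mem_univ v) x (Finset.mem_univ x) ⟨h2.symm, h3⟩ h1.symm
    rw [this]
    exact Nat.zero_le _
  · -- the other colour
    have hin : (univ.filter fun x => f x = f v ∧ x ≠ v ∧ c s(v, x) = a').card + 1 ≤
        (univ.filter fun x => f x = f v).card := by
      have : (univ.filter fun x => f x = f v ∧ x ≠ v ∧ c s(v, x) = a') ⊆
          (univ.filter fun x => f x = f v).erase v := by
        intro x hx
        rw [Finset.mem_filter] at hx
        rw [Finset.mem_erase, Finset.mem_filter]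
        exact ⟨hx.2.2.1, Finset.mem_univ _, hx.2.1⟩
      have h1 := Finset.card_le_card this
      rw [Finset.card_erase_of_mem (by simp)] at h1
      have : 0 < (univ.filter fun x => f x = f v).card := Finset.card_pos.mpr ⟨v, by simp⟩
      omega
    have hout : (univ.filter fun x => f x ≠ f v).card ≤
        (univ.filter fun x => f x ≠ f v ∧ x ≠ v ∧ c s(v, x) = a').card +
          (univ.filter fun x => r v x).card := by
      rw [← Finset.card_union_add_card_inter]
      refine le_trans (Finset.card_le_card ?_) (Nat.le_add_right _ _)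
      intro x hx
      rw [Finset.mem_filter] at hx
      rw [Finset.mem_union, Finset.mem_filter, Finset.mem_filter]
      have hxv : x ≠ v := fun h => hx.2 (by rw [h])
      by_cases hc : c s(v, x) = a
      · right; exact ⟨Finset.mem_univ _, hxv.symm, hc⟩
      · left; exact ⟨Finset.mem_univ _, hx.2, hxv, by omega⟩
    have htot : (univ.filter fun x => f x = f v).card + (univ.filter fun x => f x ≠ f v).card =
        (univ : Finset V).card :=
      Finset.card_filter_add_card_filter_not (s := (univ : Finset V)) (fun x => f x = f v)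
    unfold cnt dg at hg
    have hg' : 2 * (univ.filter fun x => f x = f v).card + (univ.filter fun x => r v x).card ≤
        (univ : Finset V).card + 1 := by exact_mod_cast hg
    omega

end Pool.Agent.Results.MP_e6d6ae_co.Forests
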