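import Mathlib

/-!
# Majority 3-partitions of 2-edge-coloured complete graphs

Let `G` be the graph of the edges of one colour. A partition is a majority partition for both
colours if every vertex `v` of each part `S` satisfies `2 d_S(v) ≤ d(v)` and
`d(v) + 2 |S| ≤ n + 1 + 2 d_S(v)` (`Ok`).

* If all degrees of `G` are at most `n / 100` (`aim_of_small`) we refine a maximum cut `(X, Y)`. The
  sizes of the parts have to be a bit smaller than `n / 2`. If both sides are too large (`case_b`), a
  third part is cut out of both sides by an averaging argument (`avg_two`). If one side is very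
  small (`case_c`), the other side is split such that the vertices with many neighbours get enough
  neighbours in their own part; this uses a second moment argument (`variance`) and an alteration.
* If all degrees are large, a random partition works (`exists_random_log`). If few vertices have low
  degree we take a random partition of the others and a local optimum (`local_opt`) for the vertices
  of low degree (`exists_mixed`).
-/

set_option autoImplicit false
set_option linter.unusedSectionVars false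

open Finset

namespace Pool.Agent.Results.MP_e6d6ae_co.SparseOrLog

open Classical

variable {V : Type*}

/-- the sum of the weights `c` over the pairs from `S` and `T` -/
noncomputable def CC (c : V → V → ℝ) (S T : Finset V) : ℝ := ∑ u ∈ S, ∑ w ∈ T, c u w

theorem CC_erase (c : V → V → ℝ) (hd : ∀ u, c u u = 0) (S : Finset V) (w : V) (hw : w ∈ S) :
    CC c (S.erase w) (S.erase w) = CC c S S - (∑ u ∈ S, c w u) - ∑ u ∈ S, c u w := by
  unfold CC
  have h1 : ∀ u, ∑ x ∈ S.erase w, c u x = ∑ x ∈ S, c u x - c u w := fun u => by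
    rw [Finset.sum_erase_eq_sub hw]
  simp_rw [h1]
  rw [Finset.sum_erase_eq_sub hw, Finset.sum_sub_distrib, hd]
  ring

theorem step (c : V → V → ℝ) (l : V → ℝ) (hc : ∀ u v, 0 ≤ c u v) (hd : ∀ u, c u u = 0) (m : ℝ)
    (S : Finset V) (k : ℕ) (hk : 1 ≤ k) (hS : S.card = k + 1) :
    ∃ w ∈ S, (m / k) ^ 2 * CC c (S.erase w) (S.erase w) + (m / k) * ∑ u ∈ S.erase w, l u ≤
      (m / (k + 1)) ^ 2 * CC c S S + (m / (k + 1)) * ∑ u ∈ S, l u := by
  apply Finset.exists_le_of_sum_le (Finset.card_pos.mp (by omega))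
  have hk0 : (0 : ℝ) < k := by exact_mod_cast hk
  have hC0 : 0 ≤ CC c S S := Finset.sum_nonneg fun u _ => Finset.sum_nonneg fun v _ => hc u v
  have h1 : ∑ w ∈ S, CC c (S.erase w) (S.erase w) = ((k : ℝ) - 1) * CC c S S := by
    rw [Finset.sum_congr rfl fun w hw => CC_erase c hd S w hw]
    rw [Finset.sum_sub_distrib, Finset.sum_sub_distrib, Finset.sum_const, nsmul_eq_mul, hS]
    have : ∑ x ∈ S, ∑ u ∈ S, c u x = CC c S S := by rw [Finset.sum_comm]; rfl
    rw [this]
    have h2 : ∑ x ∈ S, ∑ u ∈ S, c x u = CC c S S := rfl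
    rw [h2]; push_cast; ring
  have h2 : ∑ w ∈ S, ∑ u ∈ S.erase w, l u = (k : ℝ) * ∑ u ∈ S, l u := by
    rw [Finset.sum_congr rfl fun w hw => Finset.sum_erase_eq_sub (f := l) hw]
    rw [Finset.sum_sub_distrib, Finset.sum_const, nsmul_eq_mul, hS]; push_cast; ring
  rw [Finset.sum_add_distrib, ← Finset.mul_sum, ← Finset.mul_sum, h1, h2, Finset.sum_const,
    nsmul_eq_mul, hS]
  have e1 : m / k * (k * ∑ u ∈ S, l u) = m * ∑ u ∈ S, l u := by field_simp
  have e2 : ((k + 1 : ℕ) : ℝ) * ((m / (k + 1)) ^ 2 * CC c S S + m / (k + 1) * ∑ u ∈ S, l u) =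
      m ^ 2 / (k + 1) * CC c S S + m * ∑ u ∈ S, l u := by push_cast; field_simp
  rw [e1, e2]
  have e3 : (m / k) ^ 2 * (((k : ℝ) - 1) * CC c S S) ≤ m ^ 2 / (k + 1) * CC c S S := by
    rw [← mul_assoc]
    apply mul_le_mul_of_nonneg_right _ hC0
    rw [div_pow, div_mul_eq_mul_div, div_le_div_iff₀ (by positivity) (by positivity)]
    nlinarith [sq_nonneg m]
  linarith

/-- the averaging lemma -/
theorem avg (c : V → V → ℝ) (l : V → ℝ) (hc : ∀ u v, 0 ≤ c u v) (hd : ∀ u, c u u = 0) (m : ℕ)
    (hm : 1 ≤ m) (t : ℕ) : ∀ S : Finset V, S.card = m + t → ∃ Z ⊆ S, Z.card = m ∧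
      CC c Z Z + ∑ u ∈ Z, l u ≤
        ((m : ℝ) / S.card) ^ 2 * CC c S S + ((m : ℝ) / S.card) * ∑ u ∈ S, l u := by
  induction t with
  | zero =>
    intro S hS
    refine ⟨S, subset_rfl, by simpa using hS, ?_⟩
    have : (S.card : ℝ) = m := by exact_mod_cast (by simpa using hS)
    have hm0 : (m : ℝ) ≠ 0 := by positivity
    rw [this, div_self hm0]; linarith
  | succ t ih =>
    intro S hS
    obtain ⟨w, hw, h⟩ := step c l hc hd m S (m + t) (by omega) (by omega)
    obtain ⟨Z, hZ, hZc, hZ'⟩ := ih (S.erase w) (by rw [Finset.card_erase_of_mem hw]; omega)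
    refine ⟨Z, hZ.trans (Finset.erase_subset _ _), hZc, hZ'.trans ?_⟩
    rw [Finset.card_erase_of_mem hw, hS, show m + (t + 1) - 1 = m + t by omega]
    refine h.trans (le_of_eq ?_)
    push_cast
    ring

/-- averaging for two disjoint sets -/
theorem avg_two (c : V → V → ℝ) (hc : ∀ u v, 0 ≤ c u v) (hd : ∀ u, c u u = 0) (m s : ℕ)
    (hm : 1 ≤ m) (X Y : Finset V) (hXY : Disjoint X Y) (hX : s ≤ X.card) (hY : s ≤ Y.card)
    (hms : m ≤ s) : ∃ Z ⊆ X, ∃ T ⊆ Y, Z.card = m ∧ T.card = m ∧
      CC c (Z ∪ T) (Z ∪ T) ≤ ((m : ℝ) / s) ^ 2 * CC c (X ∪ Y) (X ∪ Y) := by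
  have hm0 : (0 : ℝ) < m := by exact_mod_cast hm
  have hs0 : (0 : ℝ) < s := by exact_mod_cast (by omega : 0 < s)
  have hXr : (s : ℝ) ≤ X.card := by exact_mod_cast hX
  have hYr : (s : ℝ) ≤ Y.card := by exact_mod_cast hY
  have hsplit : ∀ A B : Finset V, Disjoint A B → CC c (A ∪ B) (A ∪ B) =
      CC c A A + CC c B B + ∑ u ∈ A, ∑ w ∈ B, (c u w + c w u) := by
    intro A B hAB
    unfold CC
    rw [Finset.sum_union hAB]
    simp_rw [Finset.sum_union hAB, Finset.sum_add_distrib]
    rw [Finset.sum_comm (s := B) (t := A)]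
    ring
  obtain ⟨Z, hZX, hZc, hZ⟩ := avg c (fun u => ((m : ℝ) / Y.card) * ∑ w ∈ Y, (c u w + c w u)) hc hd m
    hm (X.card - m) X (by omega)
  obtain ⟨T, hTY, hTc, hT⟩ := avg c (fun w => ∑ u ∈ Z, (c u w + c w u)) hc hd m
    hm (Y.card - m) Y (by omega)
  refine ⟨Z, hZX, T, hTY, hZc, hTc, ?_⟩
  rw [hsplit Z T (Disjoint.mono hZX hTY hXY), hsplit X Y hXY]
  rw [← Finset.mul_sum, ← Finset.mul_sum] at hZ
  rw [Finset.sum_comm, Finset.sum_comm (s := Y)] at hT
  have n1 : 0 ≤ CC c X X := Finset.sum_nonneg fun u _ => Finset.sum_nonneg fun v _ => hc u v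
  have n2 : 0 ≤ CC c Y Y := Finset.sum_nonneg fun u _ => Finset.sum_nonneg fun v _ => hc u v
  have n3 : 0 ≤ ∑ u ∈ X, ∑ w ∈ Y, (c u w + c w u) :=
    Finset.sum_nonneg fun u _ => Finset.sum_nonneg fun v _ => add_nonneg (hc _ _) (hc _ _)
  have q1 : (m : ℝ) / X.card ≤ m / s := div_le_div_of_nonneg_left hm0.le hs0 hXr
  have q2 : (m : ℝ) / Y.card ≤ m / s := div_le_div_of_nonneg_left hm0.le hs0 hYr
  have p1 : 0 ≤ (m : ℝ) / X.card := by positivity
  have p2 : 0 ≤ (m : ℝ) / Y.card := by positivity
  have r1 : ((m : ℝ) / X.card) ^ 2 ≤ (m / s) ^ 2 := pow_le_pow_left₀ p1 q1 2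
  have r2 : ((m : ℝ) / Y.card) ^ 2 ≤ (m / s) ^ 2 := pow_le_pow_left₀ p2 q2 2
  have r3 : ((m : ℝ) / X.card) * (m / Y.card) ≤ (m / s) ^ 2 := by
    rw [sq]; exact mul_le_mul q1 q2 p2 (p1.trans q1)
  have s1 := mul_le_mul_of_nonneg_right r1 n1
  have s2 := mul_le_mul_of_nonneg_right r2 n2
  have s3 := mul_le_mul_of_nonneg_right r3 n3
  nlinarith


/-! ### numbers of neighbours -/

/-- the number of neighbours of `v` in `S` -/
noncomputable def nb (G : SimpleGraph V) (S : Finset V) (v : V) : ℕ := (S.filter fun u => G.Adj v u).card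

theorem nb_mono (G : SimpleGraph V) {S T : Finset V} (h : S ⊆ T) (v : V) : nb G S v ≤ nb G T v :=
  Finset.card_le_card (Finset.filter_subset_filter _ h)

theorem nb_le_card (G : SimpleGraph V) (S : Finset V) (v : V) : nb G S v ≤ S.card :=
  Finset.card_filter_le _ _

theorem nb_union (G : SimpleGraph V) {S T : Finset V} (h : Disjoint S T) (v : V) :
    nb G (S ∪ T) v = nb G S v + nb G T v := by
  unfold nb
  rw [Finset.filter_union, Finset.card_union_of_disjoint (Finset.disjoint_filter_filter h)]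

theorem nb_eq_sum (G : SimpleGraph V) (S : Finset V) (v : V) :
    nb G S v = ∑ u ∈ S, if G.Adj v u then 1 else 0 := by
  unfold nb; rw [Finset.card_filter]

theorem nb_comm (G : SimpleGraph V) (S T : Finset V) : ∑ u ∈ S, nb G T u = ∑ w ∈ T, nb G S w := by
  simp_rw [nb_eq_sum]
  rw [Finset.sum_comm]
  refine Finset.sum_congr rfl fun w _ => Finset.sum_congr rfl fun u _ => ?_
  rw [G.adj_comm]

theorem nb_sdiff (G : SimpleGraph V) {S T : Finset V} (h : S ⊆ T) (v : V) :
    nb G (T \ S) v + nb G S v = nb G T v := by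
  rw [← nb_union G Finset.sdiff_disjoint, Finset.sdiff_union_of_subset h]

variable [Fintype V]

/-- a maximum cut -/
theorem exists_cut (G : SimpleGraph V) : ∃ X Y : Finset V, Disjoint X Y ∧ X ∪ Y = univ ∧
    Y.card ≤ X.card ∧ (∀ v ∈ X, nb G X v ≤ nb G Y v) ∧ ∀ v ∈ Y, nb G Y v ≤ nb G X v := by
  obtain ⟨X, -, hX⟩ := Finset.exists_max_image (univ : Finset (Finset V))
    (fun X => ∑ u ∈ X, nb G Xᶜ u) ⟨∅, Finset.mem_univ _⟩
  have key : ∀ X : Finset V, (∀ X' : Finset V, ∑ u ∈ X', nb G X'ᶜ u ≤ ∑ u ∈ X, nb G Xᶜ u) →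
      ∀ v ∈ X, nb G X v ≤ nb G Xᶜ v := by
    intro X hX v hv
    have h := hX (X.erase v)
    have e1 : (X.erase v)ᶜ = Xᶜ ∪ {v} := by
      ext u; simp only [Finset.mem_compl, Finset.mem_erase, Finset.mem_union, Finset.mem_singleton]
      tauto
    have hdj : Disjoint Xᶜ {v} := by simp [hv]
    rw [e1] at h
    have e2 : ∑ u ∈ X.erase v, nb G (Xᶜ ∪ {v}) u =
        ∑ u ∈ X.erase v, nb G Xᶜ u + ∑ u ∈ X.erase v, nb G {v} u := by
      rw [← Finset.sum_add_distrib]
      exact Finset.sum_congr rfl fun u _ => nb_union G hdj u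
    rw [e2, nb_comm G (X.erase v) {v}, Finset.sum_singleton] at h
    have e3 := Finset.add_sum_erase X (fun u => nb G Xᶜ u) hv
    have e4 : nb G (X.erase v) v = nb G X v := by
      unfold nb; congr 1; ext u
      simp only [Finset.mem_filter, Finset.mem_erase]
      constructor
      · rintro ⟨⟨_, h⟩, h'⟩; exact ⟨h, h'⟩
      · rintro ⟨h, h'⟩; exact ⟨⟨h'.ne', h⟩, h'⟩
    rw [e4] at h
    omega
  have hsym : ∀ X : Finset V, ∑ u ∈ Xᶜ, nb G Xᶜᶜ u = ∑ u ∈ X, nb G Xᶜ u := by
    intro X; rw [compl_compl, nb_comm]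
  have k1 := key X (fun X' => hX X' (Finset.mem_univ _))
  have k2 := key Xᶜ (fun X' => by rw [hsym]; exact hX X' (Finset.mem_univ _))
  rw [compl_compl] at k2
  rcases le_total Xᶜ.card X.card with h | h
  · exact ⟨X, Xᶜ, disjoint_compl_right, Finset.union_compl X, h, k1, k2⟩
  · exact ⟨Xᶜ, X, disjoint_compl_left, by rw [Finset.union_comm, Finset.union_compl], h, k2, k1⟩

/-- a possible part of the partition -/
def Ok (G : SimpleGraph V) (S : Finset V) : Prop :=
  ∀ v ∈ S, 2 * nb G S v ≤ nb G univ v ∧ nb G univ v + 2 * S.card ≤ Fintype.card V + 1 + 2 * nb G S v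

/-- the aim: a partition into three possible parts -/
def Aim (G : SimpleGraph V) : Prop := ∃ A B C : Finset V, Disjoint A B ∧ Disjoint (A ∪ B) C ∧
  A ∪ B ∪ C = univ ∧ Ok G A ∧ Ok G B ∧ Ok G C

theorem ok_small (G : SimpleGraph V) (D s : ℕ) (hD : ∀ v, nb G univ v ≤ D)
    (hs : 2 * s + D ≤ Fintype.card V + 1) (S : Finset V) (hS : S.card ≤ s)
    (h : ∀ v ∈ S, 2 * nb G S v ≤ nb G univ v) : Ok G S := by
  intro v hv
  have := hD v
  exact ⟨h v hv, by omega⟩

/-- the case of a small cut -/
theorem case_a (G : SimpleGraph V) (D s : ℕ) (hD : ∀ v, nb G univ v ≤ D)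
    (hs : 2 * s + D ≤ Fintype.card V + 1) (X Y : Finset V) (hXY : Disjoint X Y)
    (hu : X ∪ Y = univ) (hX : ∀ v ∈ X, nb G X v ≤ nb G Y v) (hY : ∀ v ∈ Y, nb G Y v ≤ nb G X v)
    (h1 : X.card ≤ 2 * s) (h2 : Y.card ≤ s) : Aim G := by
  have hd : ∀ v, nb G univ v = nb G X v + nb G Y v := fun v => by rw [← hu, nb_union G hXY]
  obtain ⟨X1, hX1, hc⟩ := Finset.exists_subset_card_eq (s := X) (n := min s X.card) (min_le_right _ _)
  have hc2 : (X \ X1).card = X.card - min s X.card := by rw [Finset.card_sdiff_of_subset hX1, hc]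
  refine ⟨X1, X \ X1, Y, Finset.disjoint_sdiff, ?_, ?_, ?_, ?_, ?_⟩
  · rw [Finset.union_sdiff_of_subset hX1]; exact hXY
  · rw [Finset.union_sdiff_of_subset hX1]; exact hu
  · refine ok_small G D s hD hs _ (by omega) fun v hv => ?_
    have := nb_mono G hX1 v
    have := hX v (hX1 hv)
    have := hd v
    omega
  · refine ok_small G D s hD hs _ (by omega) fun v hv => ?_
    have := nb_mono G (Finset.sdiff_subset : X \ X1 ⊆ X) v
    have := hX v (Finset.sdiff_subset hv)
    have := hd v
    omega
  · refine ok_small G D s hD hs _ h2 fun v hv => ?_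
    have := hY v hv
    have := hd v
    omega

/-- the case of a balanced cut -/
theorem case_b (G : SimpleGraph V) (D s : ℕ) (hD : ∀ v, nb G univ v ≤ D) (hD1 : 1 ≤ D)
    (hDn : 100 * D ≤ Fintype.card V)
    (hs : 2 * s + D ≤ Fintype.card V + 1) (hs' : Fintype.card V ≤ 2 * s + D) (X Y : Finset V)
    (hXY : Disjoint X Y)
    (hu : X ∪ Y = univ) (hX : ∀ v ∈ X, nb G X v ≤ nb G Y v) (hY : ∀ v ∈ Y, nb G Y v ≤ nb G X v)
    (h1 : Y.card ≤ X.card) (h2 : s < Y.card) : Aim G := by
  have hd : ∀ v, nb G univ v = nb G X v + nb G Y v := fun v => by rw [← hu, nb_union G hXY]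
  have hn : X.card + Y.card = Fintype.card V := by
    rw [← Finset.card_union_of_disjoint hXY, hu, Finset.card_univ]
  set c : V → V → ℝ := fun u w => if G.Adj u w then 1 / (nb G univ u : ℝ) else 0 with hc
  have hc0 : ∀ u w, 0 ≤ c u w := fun u w => by simp only [hc]; split_ifs <;> positivity
  have hcd : ∀ u, c u u = 0 := fun u => by simp [hc]
  have hrow : ∀ (S : Finset V) u, ∑ w ∈ S, c u w = (nb G S u : ℝ) / nb G univ u := by
    intro S u
    simp only [hc]
    rw [← Finset.sum_filter, Finset.sum_const, nsmul_eq_mul]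
    unfold nb; ring
  obtain ⟨Z, hZX, T, hTY, hZc, hTc, hZT⟩ := avg_two c hc0 hcd (2 * D) s (by omega) X Y hXY
    (by omega) (by omega) (by omega)
  rw [hu] at hZT
  have hdj : Disjoint Z T := Disjoint.mono hZX hTY hXY
  have htot : CC c univ univ ≤ Fintype.card V := by
    unfold CC
    simp_rw [hrow]
    calc ∑ u, (nb G univ u : ℝ) / nb G univ u ≤ ∑ _u : V, (1 : ℝ) :=
          Finset.sum_le_sum fun u _ => div_self_le_one _
      _ = Fintype.card V := by simp
  set Bad : Finset V := (Z ∪ T).filter fun v => nb G univ v < 2 * nb G (Z ∪ T) v with hBad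
  have hB : (Bad.card : ℝ) ≤ 2 * CC c (Z ∪ T) (Z ∪ T) := by
    unfold CC
    simp_rw [hrow]
    rw [Finset.mul_sum]
    calc (Bad.card : ℝ) = ∑ _v ∈ Bad, (1 : ℝ) := by simp
      _ ≤ ∑ v ∈ Bad, 2 * ((nb G (Z ∪ T) v : ℝ) / nb G univ v) := by
          refine Finset.sum_le_sum fun v hv => ?_
          have h := (Finset.mem_filter.mp hv).2
          have h3 : nb G (Z ∪ T) v ≤ nb G univ v := nb_mono G (Finset.subset_univ _) v
          have h4 : 0 < nb G univ v := by omega
          have h5 : (0 : ℝ) < nb G univ v := by exact_mod_cast h4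
          have h6 : (nb G univ v : ℝ) < 2 * nb G (Z ∪ T) v := by exact_mod_cast h
          rw [← mul_div_assoc, le_div_iff₀ h5]
          linarith
      _ ≤ ∑ v ∈ Z ∪ T, 2 * ((nb G (Z ∪ T) v : ℝ) / nb G univ v) :=
          Finset.sum_le_sum_of_subset_of_nonneg (Finset.filter_subset _ _) fun _ _ _ => by positivity
  have hBD : Bad.card ≤ D := by
    have hs0 : (0 : ℝ) < s := by exact_mod_cast (by omega : 0 < s)
    have hn1 : (Fintype.card V : ℝ) ≤ 2 * s + D := by exact_mod_cast hs'
    have hn2 : 100 * (D : ℝ) ≤ Fintype.card V := by exact_mod_cast hDn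
    have hD0 : (1 : ℝ) ≤ D := by exact_mod_cast hD1
    set N : ℝ := ((Fintype.card V : ℕ) : ℝ) with hN
    have hsN : 0.495 * N ≤ s := by linarith
    have h3 : ((2 * D : ℕ) / (s : ℝ)) ^ 2 * CC c univ univ ≤ ((2 * D : ℕ) / (s : ℝ)) ^ 2 * N :=
      mul_le_mul_of_nonneg_left htot (by positivity)
    have h4 : ((2 * D : ℕ) / (s : ℝ)) ^ 2 * N ≤ D / 2 := by
      push_cast
      rw [div_pow, div_mul_eq_mul_div, div_le_iff₀ (by positivity)]
      have h5 : (0.495 * N) ^ 2 ≤ (s : ℝ) ^ 2 := pow_le_pow_left₀ (by linarith) hsN 2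
      have h6 : 8 * (D : ℝ) * N ≤ s ^ 2 := by nlinarith
      nlinarith
    have : (Bad.card : ℝ) ≤ D := by linarith
    exact_mod_cast this
  have hBZ : D ≤ (Z \ Bad).card := by
    have := Finset.le_card_sdiff Bad Z
    omega
  have hBT : D ≤ (T \ Bad).card := by
    have := Finset.le_card_sdiff Bad T
    omega
  obtain ⟨Z', hZ', hZ'c⟩ := Finset.exists_subset_card_eq (s := Z \ Bad) (n := X.card - s) (by omega)
  obtain ⟨T', hT', hT'c⟩ := Finset.exists_subset_card_eq (s := T \ Bad) (n := Y.card - s) (by omega)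
  have hZ'X : Z' ⊆ X := fun v hv => hZX (Finset.mem_sdiff.mp (hZ' hv)).1
  have hT'Y : T' ⊆ Y := fun v hv => hTY (Finset.mem_sdiff.mp (hT' hv)).1
  have c1 : (X \ Z').card = X.card - (X.card - s) := by rw [Finset.card_sdiff_of_subset hZ'X, hZ'c]
  have c2 : (Y \ T').card = Y.card - (Y.card - s) := by rw [Finset.card_sdiff_of_subset hT'Y, hT'c]
  have c3 : (Z' ∪ T').card ≤ (X.card - s) + (Y.card - s) := by
    rw [← hZ'c, ← hT'c]; exact Finset.card_union_le _ _
  refine ⟨X \ Z', Y \ T', Z' ∪ T', ?_, ?_, ?_, ?_, ?_, ?_⟩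
  · exact Disjoint.mono Finset.sdiff_subset Finset.sdiff_subset hXY
  · rw [Finset.disjoint_left] at hXY ⊢
    intro v hv hv'
    simp only [Finset.mem_union, Finset.mem_sdiff] at hv hv'
    rcases hv with ⟨h3, h4⟩ | ⟨h3, h4⟩
    · rcases hv' with h5 | h5
      · exact h4 h5
      · exact hXY h3 (hT'Y h5)
    · rcases hv' with h5 | h5
      · exact hXY (hZ'X h5) h3
      · exact h4 h5
  · ext v
    have := (Finset.ext_iff.mp hu v)
    simp only [Finset.mem_union, Finset.mem_sdiff, Finset.mem_univ, iff_true] at this ⊢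
    tauto
  · refine ok_small G D s hD hs _ (by omega) fun v hv => ?_
    have := nb_mono G (Finset.sdiff_subset : X \ Z' ⊆ X) v
    have := hX v (Finset.sdiff_subset hv)
    have := hd v
    omega
  · refine ok_small G D s hD hs _ (by omega) fun v hv => ?_
    have := nb_mono G (Finset.sdiff_subset : Y \ T' ⊆ Y) v
    have := hY v (Finset.sdiff_subset hv)
    have := hd v
    omega
  · refine ok_small G D s hD hs _ (by omega) fun v hv => ?_
    have h3 : Z' ∪ T' ⊆ Z ∪ T := Finset.union_subset_union (hZ'.trans Finset.sdiff_subset)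
      (hT'.trans Finset.sdiff_subset)
    have h4 : v ∉ Bad := by
      rcases Finset.mem_union.mp hv with h | h
      · exact (Finset.mem_sdiff.mp (hZ' h)).2
      · exact (Finset.mem_sdiff.mp (hT' h)).2
    rw [hBad, Finset.mem_filter, not_and, not_lt] at h4
    have h5 := h4 (h3 hv)
    have := nb_mono G h3 v
    omega


/-- the variance of the number of neighbours in a random subset -/
theorem variance (G : SimpleGraph V) (E W : Finset V) (m : ℕ) (hm : 1 ≤ m) (hmW : m ≤ W.card) :
    ∃ S ⊆ W, S.card = m ∧ ∑ v ∈ E, ((nb G S v : ℝ) - (m / W.card) * nb G W v) ^ 2 ≤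
      (1 / 4) * ∑ v ∈ E, (nb G W v : ℝ) := by
  set a : V → V → ℝ := fun v u => if G.Adj v u then 1 else 0 with ha
  have ha0 : ∀ v u, 0 ≤ a v u := fun v u => by simp only [ha]; split_ifs <;> norm_num
  have haa : ∀ v u, a v u * a v u = a v u := fun v u => by simp only [ha]; split_ifs <;> norm_num
  have hnb : ∀ (S : Finset V) v, (nb G S v : ℝ) = ∑ u ∈ S, a v u := fun S v => by
    rw [nb_eq_sum]; push_cast; rfl
  set p : ℝ := m / W.card with hp
  set c : V → V → ℝ := fun u w => if u = w then 0 else ∑ v ∈ E, a v u * a v w with hc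
  set l : V → ℝ := fun u => ∑ v ∈ E, a v u * (1 - 2 * p * nb G W v) with hl
  have hc0 : ∀ u w, 0 ≤ c u w := fun u w => by
    simp only [hc]; split_ifs
    · exact le_rfl
    · exact Finset.sum_nonneg fun v _ => mul_nonneg (ha0 _ _) (ha0 _ _)
  have hcd : ∀ u, c u u = 0 := fun u => by simp [hc]
  have hCC : ∀ S : Finset V, CC c S S = ∑ v ∈ E, ((nb G S v : ℝ) ^ 2 - nb G S v) := by
    intro S
    unfold CC
    have h1 : ∀ u ∈ S, ∑ w ∈ S, c u w = ∑ v ∈ E, (a v u * nb G S v - a v u) := by
      intro u hu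
      have h2 : ∀ w, c u w = (∑ v ∈ E, a v u * a v w) - if u = w then ∑ v ∈ E, a v u else 0 := by
        intro w
        simp only [hc]
        split_ifs with h
        · subst h; simp_rw [haa]; ring
        · ring
      simp_rw [h2]
      rw [Finset.sum_sub_distrib, Finset.sum_comm, Finset.sum_ite_eq, if_pos hu,
        Finset.sum_sub_distrib]
      congr 1
      refine Finset.sum_congr rfl fun v _ => ?_
      rw [hnb, Finset.mul_sum]
    rw [Finset.sum_congr rfl h1, Finset.sum_comm]
    refine Finset.sum_congr rfl fun v _ => ?_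
    rw [Finset.sum_sub_distrib, ← Finset.sum_mul, ← hnb]
    ring
  have hL : ∀ S : Finset V, ∑ u ∈ S, l u = ∑ v ∈ E, (nb G S v : ℝ) * (1 - 2 * p * nb G W v) := by
    intro S
    simp only [hl]
    rw [Finset.sum_comm]
    refine Finset.sum_congr rfl fun v _ => ?_
    rw [← Finset.sum_mul, ← hnb]
  obtain ⟨S, hS, hSc, h⟩ := avg c l hc0 hcd m hm (W.card - m) W (by omega)
  refine ⟨S, hS, hSc, ?_⟩
  rw [hCC, hCC, hL, hL, ← hp, ← Finset.sum_add_distrib, Finset.mul_sum, Finset.mul_sum,
    ← Finset.sum_add_distrib] at h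
  have h3 : ∑ v ∈ E, ((nb G S v : ℝ) - p * nb G W v) ^ 2 =
      ∑ v ∈ E, (((nb G S v : ℝ) ^ 2 - nb G S v) + (nb G S v : ℝ) * (1 - 2 * p * nb G W v)) +
      ∑ v ∈ E, (p * nb G W v) ^ 2 := by
    rw [← Finset.sum_add_distrib]
    exact Finset.sum_congr rfl fun v _ => by ring
  rw [h3]
  refine (add_le_add_left h _).trans ?_
  rw [← Finset.sum_add_distrib, Finset.mul_sum]
  refine Finset.sum_le_sum fun v _ => ?_
  have h4 : (0 : ℝ) ≤ nb G W v := by positivity
  nlinarith [mul_nonneg h4 (sq_nonneg (2 * p - 1))]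

/-- the case of an unbalanced cut -/
theorem case_c (G : SimpleGraph V) (D s : ℕ) (hD : ∀ v, nb G univ v ≤ D)
    (hDn : 100 * D ≤ Fintype.card V)
    (hs : 2 * s + D ≤ Fintype.card V + 1) (hs' : Fintype.card V ≤ 2 * s + D) (X Y : Finset V)
    (hXY : Disjoint X Y)
    (hu : X ∪ Y = univ) (hX : ∀ v ∈ X, nb G X v ≤ nb G Y v) (hY : ∀ v ∈ Y, nb G Y v ≤ nb G X v)
    (h1 : 2 * s < X.card) : Aim G := by
  have hd : ∀ v, nb G univ v = nb G X v + nb G Y v := fun v => by rw [← hu, nb_union G hXY]
  have hn : X.card + Y.card = Fintype.card V := by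
    rw [← Finset.card_union_of_disjoint hXY, hu, Finset.card_univ]
  set n := Fintype.card V with hn'
  set y := Y.card with hy
  have hyD : y < D := by omega
  have hn100 : 100 ≤ n := by omega
  have hYy : ∀ v, nb G Y v ≤ y := fun v => nb_le_card G Y v
  -- the threshold
  set k := 8 * y * D / n with hk
  have hk1 : k * n ≤ 8 * y * D := Nat.div_mul_le_self _ _
  have hk2 : 8 * y * D < (k + 1) * n := by
    have := Nat.lt_succ_self (8 * y * D / n)
    rw [Nat.div_lt_iff_lt_mul (by omega)] at this
    exact this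
  have hk3 : 100 * k ≤ 8 * y := by
    have h3 : 100 * k * n ≤ 8 * y * n := by nlinarith
    exact Nat.le_of_mul_le_mul_right h3 (by omega)
  set Hi : Finset V := X.filter fun v => k + 1 ≤ nb G univ v with hHi
  have hsumY : ∀ S : Finset V, S ⊆ X → ∑ v ∈ S, nb G Y v ≤ y * D := by
    intro S hS
    rw [nb_comm]
    calc ∑ w ∈ Y, nb G S w ≤ ∑ _w ∈ Y, D :=
          Finset.sum_le_sum fun w _ => (nb_mono G (Finset.subset_univ _) w).trans (hD w)
      _ = y * D := by simp [hy]
  have hHi4 : 4 * Hi.card ≤ n := by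
    have h3 : Hi.card * (k + 1) ≤ 2 * (y * D) := by
      calc Hi.card * (k + 1) = ∑ _v ∈ Hi, (k + 1) := by simp
        _ ≤ ∑ v ∈ Hi, 2 * nb G Y v := by
            refine Finset.sum_le_sum fun v hv => ?_
            have h4 := Finset.mem_filter.mp hv
            have h5 := hX v h4.1
            have h6 := hd v
            omega
        _ ≤ 2 * (y * D) := by
            rw [← Finset.mul_sum]
            exact Nat.mul_le_mul_left _ (hsumY Hi (Finset.filter_subset _ _))
    by_contra hcon
    rw [not_le] at hcon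
    have h4 : (k + 1) * n < (k + 1) * (4 * Hi.card) := Nat.mul_lt_mul_of_pos_left hcon (by omega)
    nlinarith
  set W : Finset V := X \ Hi with hW
  have hWc : W.card = X.card - Hi.card := Finset.card_sdiff_of_subset (Finset.filter_subset _ _)
  have hWX : W ⊆ X := Finset.sdiff_subset
  have hWk : ∀ v ∈ W, nb G univ v ≤ k := by
    intro v hv
    have h3 := Finset.mem_sdiff.mp hv
    by_contra hcon
    exact h3.2 (Finset.mem_filter.mpr ⟨h3.1, by omega⟩)
  -- it is enough to find `X2`
  have main : ∀ X2 : Finset V, X2 ⊆ W → X2.card = (n + 1 - k) / 2 →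
      (∀ v ∈ X, 2 * y + 2 ≤ nb G univ v + k → nb G X2 v + k / 2 ≤ nb G X v) → Aim G := by
    intro X2 hX2 hX2c hE
    have hX2X : X2 ⊆ X := hX2.trans hWX
    have hX1c : (X \ X2).card = X.card - X2.card := Finset.card_sdiff_of_subset hX2X
    refine ⟨X \ X2, X2, Y, Finset.sdiff_disjoint, ?_, ?_, ?_, ?_, ?_⟩
    · rw [Finset.sdiff_union_of_subset hX2X]; exact hXY
    · rw [Finset.sdiff_union_of_subset hX2X]; exact hu
    · intro v hv
      have hvX : v ∈ X := Finset.sdiff_subset hv
      have e1 := nb_sdiff G hX2X v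
      have e2 := hX v hvX
      have e3 := hd v
      have e4 := hYy v
      refine ⟨by omega, ?_⟩
      by_cases hcase : 2 * y + 2 ≤ nb G univ v + k
      · have := hE v hvX hcase
        omega
      · omega
    · intro v hv
      have e1 := nb_mono G hX2X v
      have e2 := hX v (hX2X hv)
      have e3 := hd v
      have e4 := hWk v (hX2 hv)
      exact ⟨by omega, by omega⟩
    · intro v hv
      have e2 := hY v hv
      have e3 := hd v
      have e4 := hD v
      exact ⟨by omega, by omega⟩
  set E : Finset V := X.filter fun v => 2 * y + 2 ≤ nb G univ v + k with hE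
  rcases Nat.lt_or_ge k 2 with hk' | hk'
  · obtain ⟨X2, hX2, hX2c⟩ := Finset.exists_subset_card_eq (s := W) (n := (n + 1 - k) / 2) (by omega)
    refine main X2 hX2 hX2c fun v hv h => ?_
    have e2 := hX v hv
    have e3 := hd v
    have e4 := hYy v
    omega
  have hy25 : 25 ≤ y := by omega
  -- the number of vertices in `E`
  have hEc : 96 * E.card ≤ 100 * D := by
    have h3 : E.card * (96 * y) ≤ 100 * (y * D) := by
      calc E.card * (96 * y) = ∑ _v ∈ E, (96 * y) := by simp
        _ ≤ ∑ v ∈ E, 100 * nb G Y v := by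
            refine Finset.sum_le_sum fun v hv => ?_
            have h4 := Finset.mem_filter.mp hv
            have h5 := hX v h4.1
            have h6 := hd v
            omega
        _ ≤ 100 * (y * D) := by
            rw [← Finset.mul_sum]
            exact Nat.mul_le_mul_left _ (hsumY E (Finset.filter_subset _ _))
    have h4 : y * (96 * E.card) ≤ y * (100 * D) := by nlinarith
    exact Nat.le_of_mul_le_mul_left h4 (by omega)
  obtain ⟨S, hSW, hSc, hvar⟩ := variance G E W (11 * n / 20) (by omega) (by omega)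
  set m0 := 11 * n / 20 with hm0
  set Bad : Finset V := E.filter fun v => nb G X v < nb G S v + k / 2 with hBad
  have hXy : ∀ v ∈ X, nb G X v ≤ y := fun v hv => (hX v hv).trans (hYy v)
  -- few bad vertices
  have hBc : 169 * (Bad.card * y) ≤ 2500 * E.card := by
    have hp : (m0 : ℝ) / W.card ≤ 3 / 4 := by
      have h3 : 4 * m0 ≤ 3 * W.card := by omega
      have h4 : (0 : ℝ) < W.card := by exact_mod_cast (by omega : 0 < W.card)
      rw [div_le_div_iff₀ h4 (by norm_num)]
      have : (4 : ℝ) * m0 ≤ 3 * W.card := by exact_mod_cast h3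
      linarith
    have hp0 : (0 : ℝ) ≤ (m0 : ℝ) / W.card := by positivity
    have hy0 : (0 : ℝ) < y := by exact_mod_cast (by omega : 0 < y)
    have h3 : (Bad.card : ℝ) * (13 / 100 * y) ^ 2 ≤
        ∑ v ∈ E, ((nb G S v : ℝ) - (m0 / W.card) * nb G W v) ^ 2 := by
      calc (Bad.card : ℝ) * (13 / 100 * y) ^ 2 = ∑ _v ∈ Bad, (13 / 100 * (y : ℝ)) ^ 2 := by simp
        _ ≤ ∑ v ∈ Bad, ((nb G S v : ℝ) - (m0 / W.card) * nb G W v) ^ 2 := by
            refine Finset.sum_le_sum fun v hv => ?_
            have h4 := Finset.mem_filter.mp hv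
            have h5 := Finset.mem_filter.mp h4.1
            have e1 := hd v
            have e2 := hYy v
            have e3 : nb G W v ≤ nb G X v := nb_mono G hWX v
            have e4 := hXy v h5.1
            have e5 : 88 * y ≤ 100 * nb G S v := by omega
            have e6 : nb G W v ≤ y := e3.trans e4
            have r5 : (88 : ℝ) * y ≤ 100 * nb G S v := by exact_mod_cast e5
            have r6 : (nb G W v : ℝ) ≤ y := by exact_mod_cast e6
            have r7 : (m0 : ℝ) / W.card * nb G W v ≤ 3 / 4 * y :=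
              mul_le_mul hp r6 (by positivity) (by norm_num)
            exact pow_le_pow_left₀ (by positivity) (by linarith) 2
        _ ≤ _ := Finset.sum_le_sum_of_subset_of_nonneg (Finset.filter_subset _ _)
            fun _ _ _ => sq_nonneg _
    have h4 : ∑ v ∈ E, (nb G W v : ℝ) ≤ E.card * y := by
      calc ∑ v ∈ E, (nb G W v : ℝ) ≤ ∑ _v ∈ E, (y : ℝ) := by
            refine Finset.sum_le_sum fun v hv => ?_
            have h5 := Finset.mem_filter.mp hv
            exact_mod_cast (nb_mono G hWX v).trans (hXy v h5.1)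
        _ = E.card * y := by simp
    have h5 : (169 : ℝ) * (Bad.card * y) * y ≤ 2500 * E.card * y := by nlinarith
    have h6 := le_of_mul_le_mul_right h5 hy0
    exact_mod_cast h6
  -- remove neighbours of the bad vertices
  have hR : ∀ v ∈ Bad, ∃ R ⊆ S, (∀ u ∈ R, G.Adj v u) ∧ R.card = k / 2 := by
    intro v hv
    have h4 := Finset.mem_filter.mp hv
    have h5 := Finset.mem_filter.mp h4.1
    have e1 := hd v
    have e2 := hYy v
    have e7 : k / 2 ≤ nb G S v := by omega
    obtain ⟨R, hR, hRc⟩ := Finset.exists_subset_card_eq (s := S.filter fun u => G.Adj v u)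
      (n := k / 2) e7
    exact ⟨R, hR.trans (Finset.filter_subset _ _), fun u hu => (Finset.mem_filter.mp (hR hu)).2, hRc⟩
  choose! R hRS hRadj hRc using hR
  set S1 : Finset V := S \ Bad.biUnion R with hS1
  have hS1c : S.card - Bad.card * (k / 2) ≤ S1.card := by
    have h3 : (Bad.biUnion R).card ≤ Bad.card * (k / 2) :=
      Finset.card_biUnion_le_card_mul _ _ _ fun v hv => (hRc v hv).le
    calc S.card - Bad.card * (k / 2) ≤ S.card - (Bad.biUnion R).card := by omega
      _ ≤ S1.card := Finset.le_card_sdiff _ _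
  have hBk : Bad.card * (k / 2) * 100 ≤ n := by
    have h3 : Bad.card * (k / 2) * 100 ≤ 4 * (Bad.card * y) := by
      have h4 : (k / 2) * 100 ≤ 4 * y := by omega
      nlinarith
    omega
  obtain ⟨X2, hX2, hX2c⟩ := Finset.exists_subset_card_eq (s := S1) (n := (n + 1 - k) / 2) (by omega)
  have hS1S : S1 ⊆ S := Finset.sdiff_subset
  refine main X2 (hX2.trans (hS1S.trans hSW)) hX2c fun v hv h => ?_
  by_cases hb : v ∈ Bad
  · -- at least `k / 2` neighbours have been removed
    have h3 : nb G S1 v + k / 2 ≤ nb G S v := by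
      rw [← hRc v hb]
      unfold nb
      rw [← Finset.card_union_of_disjoint]
      · apply Finset.card_le_card
        intro u hu'
        rcases Finset.mem_union.mp hu' with h4 | h4
        · have h5 := Finset.mem_filter.mp h4
          exact Finset.mem_filter.mpr ⟨hS1S h5.1, h5.2⟩
        · exact Finset.mem_filter.mpr ⟨hRS v hb h4, hRadj v hb u h4⟩
      · rw [Finset.disjoint_left]
        intro u h4 h5
        have h6 := (Finset.mem_sdiff.mp (Finset.mem_filter.mp h4).1).2
        exact h6 (Finset.mem_biUnion.mpr ⟨v, hb, h5⟩)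
    have h4 := nb_mono G hX2 v
    have h5 : nb G S v ≤ nb G X v := nb_mono G (hSW.trans hWX) v
    omega
  · have h3 : v ∈ E := Finset.mem_filter.mpr ⟨hv, h⟩
    have h4 : ¬ nb G X v < nb G S v + k / 2 := fun h5 => hb (Finset.mem_filter.mpr ⟨h3, h5⟩)
    have h5 := nb_mono G (hX2.trans hS1S) v
    omega

theorem aim_of_small (G : SimpleGraph V) (D : ℕ) (hD : ∀ v, nb G univ v ≤ D)
    (hDn : 100 * D ≤ Fintype.card V) : Aim G := by
  obtain ⟨X, Y, hXY, hu, hc, hX, hY⟩ := exists_cut G
  have hn : X.card + Y.card = Fintype.card V := by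
    rw [← Finset.card_union_of_disjoint hXY, hu, Finset.card_univ]
  have hs : 2 * ((Fintype.card V + 1 - D) / 2) + D ≤ Fintype.card V + 1 := by omega
  have hs' : Fintype.card V ≤ 2 * ((Fintype.card V + 1 - D) / 2) + D := by omega
  by_cases h1 : 2 * ((Fintype.card V + 1 - D) / 2) < X.card
  · exact case_c G D _ hD hDn hs hs' X Y hXY hu hX hY h1
  by_cases h2 : (Fintype.card V + 1 - D) / 2 < Y.card
  · exact case_b G D _ hD (by omega) hDn hs hs' X Y hXY hu hX hY hc h2
  exact case_a G D _ hD hs X Y hXY hu hX hY (by omega) (by omega)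


/-! ### random partitions -/

/-- the number of neighbours of `v` in its own part -/
noncomputable def same (H : SimpleGraph V) (f : V → Fin 3) (v : V) : ℕ :=
  nb H (univ.filter fun u => f u = f v) v

theorem sum_pow (H : SimpleGraph V) (v : V) : ∑ f : V → Fin 3, (2 : ℝ) ^ same H f v =
    3 ^ Fintype.card V * (4 / 3) ^ nb H univ v := by
  set g : Fin 3 → V → Fin 3 → ℝ := fun i u j =>
    if u = v then (if j = i then 1 else 0) else if H.Adj v u ∧ j = i then 2 else 1 with hg
  have h1 : ∀ f : V → Fin 3, (2 : ℝ) ^ same H f v = ∑ i, ∏ u, g i u (f u) := by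
    intro f
    rw [Finset.sum_eq_single (f v)]
    · unfold same nb
      rw [← Finset.prod_const, Finset.filter_filter, Finset.prod_filter]
      refine Finset.prod_congr rfl fun u _ => ?_
      simp only [hg]
      by_cases hu : u = v
      · subst hu; simp
      · rw [if_neg hu]
        by_cases h2 : H.Adj v u <;> by_cases h3 : f u = f v <;> simp [h2, h3]
    · intro i _ hi
      refine Finset.prod_eq_zero (Finset.mem_univ v) ?_
      simp [hg, Ne.symm hi]
    · simp
  have h2 : ∀ i u, ∑ j, g i u j = 3 * (if H.Adj v u then 4 / 3 else 1) * (if u = v then 1 / 3 else 1) := by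
    intro i u
    simp only [hg]
    by_cases hu : u = v
    · subst hu; simp
    · simp only [if_neg hu]
      by_cases h3 : H.Adj v u
      · simp only [h3, true_and, if_true]
        fin_cases i <;> simp [Fin.sum_univ_three] <;> norm_num
      · simp [h3]
  simp_rw [h1]
  rw [Finset.sum_comm]
  have h3 : ∀ i : Fin 3, ∑ f : V → Fin 3, ∏ u, g i u (f u) =
      3 ^ Fintype.card V * (4 / 3) ^ nb H univ v * (1 / 3) := by
    intro i
    have h4 := Finset.prod_univ_sum (fun _ : V => (univ : Finset (Fin 3))) (fun u j => g i u j)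
    rw [Fintype.piFinset_univ] at h4
    rw [← h4]
    simp_rw [h2]
    rw [Finset.prod_mul_distrib, Finset.prod_mul_distrib, Finset.prod_const, Finset.card_univ]
    congr 1
    · congr 1
      unfold nb
      rw [← Finset.prod_const, Finset.prod_filter]
    · rw [Finset.prod_ite_eq' univ v]; simp
  simp_rw [h3]
  rw [Finset.sum_const, Finset.card_univ, Fintype.card_fin, nsmul_eq_mul]
  push_cast; ring

/-- the base of the exponential bound -/
noncomputable def rr : ℝ := 4 / 3 / Real.sqrt 2

theorem weight_ge (H : SimpleGraph V) (f : V → Fin 3) (v : V) (h : nb H univ v < 2 * same H f v) :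
    1 ≤ (2 : ℝ) ^ same H f v / Real.sqrt 2 ^ nb H univ v := by
  have h0 : 0 < Real.sqrt 2 := Real.sqrt_pos.mpr (by norm_num)
  have h1 : 1 ≤ Real.sqrt 2 := Real.one_le_sqrt.mpr (by norm_num)
  rw [le_div_iff₀ (pow_pos h0 _), one_mul]
  calc Real.sqrt 2 ^ nb H univ v ≤ Real.sqrt 2 ^ (2 * same H f v) := pow_le_pow_right₀ h1 h.le
    _ = 2 ^ same H f v := by rw [pow_mul, Real.sq_sqrt (by norm_num)]

theorem exists_random (G H : SimpleGraph V)
    (h : ∑ v : V, (rr ^ nb G univ v + rr ^ nb H univ v) < 1) :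
    ∃ f : V → Fin 3, ∀ v, 2 * same G f v ≤ nb G univ v ∧ 2 * same H f v ≤ nb H univ v := by
  by_contra hcon
  push Not at hcon
  have h1 : ∀ f : V → Fin 3, 1 ≤ ∑ v : V, ((2 : ℝ) ^ same G f v / Real.sqrt 2 ^ nb G univ v +
      (2 : ℝ) ^ same H f v / Real.sqrt 2 ^ nb H univ v) := by
    intro f
    obtain ⟨v, hv⟩ := hcon f
    have hnn : ∀ v : V, 0 ≤ (2 : ℝ) ^ same G f v / Real.sqrt 2 ^ nb G univ v +
      (2 : ℝ) ^ same H f v / Real.sqrt 2 ^ nb H univ v := fun v => by positivity
    refine le_trans ?_ (Finset.single_le_sum (fun v _ => hnn v) (Finset.mem_univ v))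
    rcases Nat.lt_or_ge (nb G univ v) (2 * same G f v) with h2 | h2
    · have := weight_ge G f v h2
      have : 0 ≤ (2 : ℝ) ^ same H f v / Real.sqrt 2 ^ nb H univ v := by positivity
      linarith
    · have := weight_ge H f v (hv h2)
      have : 0 ≤ (2 : ℝ) ^ same G f v / Real.sqrt 2 ^ nb G univ v := by positivity
      linarith
  have h2 : ((3 : ℝ) ^ Fintype.card V) ≤ ∑ f : V → Fin 3, ∑ v : V,
      ((2 : ℝ) ^ same G f v / Real.sqrt 2 ^ nb G univ v +
      (2 : ℝ) ^ same H f v / Real.sqrt 2 ^ nb H univ v) := by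
    calc ((3 : ℝ) ^ Fintype.card V) = ∑ _f : V → Fin 3, (1 : ℝ) := by simp
      _ ≤ _ := Finset.sum_le_sum fun f _ => h1 f
  have h0 : 0 < Real.sqrt 2 := Real.sqrt_pos.mpr (by norm_num)
  have h3 : ∀ (K : SimpleGraph V) (v : V), ∑ f : V → Fin 3,
      (2 : ℝ) ^ same K f v / Real.sqrt 2 ^ nb K univ v = 3 ^ Fintype.card V * rr ^ nb K univ v := by
    intro K v
    rw [← Finset.sum_div, sum_pow, rr, div_pow (4 / 3 : ℝ)]
    ring
  rw [Finset.sum_comm] at h2
  simp_rw [Finset.sum_add_distrib, h3] at h2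
  rw [← Finset.mul_sum, ← Finset.mul_sum, ← mul_add, ← Finset.sum_add_distrib] at h2
  have h4 : (0 : ℝ) < 3 ^ Fintype.card V := by positivity
  nlinarith

theorem rr_pow (n d : ℕ) (hn : 1 ≤ n) (h : 18 * Real.log (2 * n) ≤ d) : rr ^ d < 1 / (2 * n) := by
  have h0 : 0 < Real.sqrt 2 := Real.sqrt_pos.mpr (by norm_num)
  have hr0 : 0 < rr := by unfold rr; positivity
  have hn0 : (1 : ℝ) ≤ n := by exact_mod_cast hn
  have hlog : Real.log rr < - (1 / 18) := by
    have h1 : rr ^ 2 = 8 / 9 := by
      unfold rr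
      rw [div_pow, Real.sq_sqrt (by norm_num)]; norm_num
    have h2 : 2 * Real.log rr = Real.log (8 / 9) := by
      rw [← h1, Real.log_pow]; push_cast; ring
    have h3 : Real.log (8 / 9) ≤ 8 / 9 - 1 := Real.log_le_sub_one_of_pos (by norm_num)
    have h4 : Real.log (8 / 9) < 8 / 9 - 1 := by
      apply Real.log_lt_sub_one_of_pos (by norm_num) (by norm_num)
    linarith
  have h5 : 0 < Real.log (2 * n) := Real.log_pos (by linarith)
  rw [← Real.log_lt_log_iff (pow_pos hr0 _) (by positivity), Real.log_pow, one_div, Real.log_inv]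
  have h6 : 18 * Real.log (2 * n) * Real.log rr < 18 * Real.log (2 * n) * (-(1 / 18)) :=
    mul_lt_mul_of_pos_left hlog (by positivity)
  have h7 : (d : ℝ) * Real.log rr ≤ 18 * Real.log (2 * n) * Real.log rr :=
    mul_le_mul_of_nonpos_right h (by linarith)
  linarith

theorem exists_random_log (G H : SimpleGraph V)
    (hG : ∀ v, 18 * Real.log (2 * Fintype.card V) ≤ nb G univ v)
    (hH : ∀ v, 18 * Real.log (2 * Fintype.card V) ≤ nb H univ v) :
    ∃ f : V → Fin 3, ∀ v, 2 * same G f v ≤ nb G univ v ∧ 2 * same H f v ≤ nb H univ v := by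
  rcases isEmpty_or_nonempty V with hV | hV
  · exact ⟨fun _ => 0, fun v => (hV.false v).elim⟩
  apply exists_random
  have hn : 1 ≤ Fintype.card V := Fintype.card_pos
  have hn0 : (0 : ℝ) < Fintype.card V := by exact_mod_cast hn
  calc ∑ v : V, (rr ^ nb G univ v + rr ^ nb H univ v) <
      ∑ _v : V, (1 / (2 * (Fintype.card V : ℝ)) + 1 / (2 * (Fintype.card V : ℝ))) := by
        refine Finset.sum_lt_sum_of_nonempty Finset.univ_nonempty fun v _ => ?_
        exact add_lt_add (rr_pow _ _ hn (hG v)) (rr_pow _ _ hn (hH v))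
    _ = 1 := by
        rw [Finset.sum_const, Finset.card_univ, nsmul_eq_mul]; field_simp; norm_num


/-! ### few vertices of low degree -/

/-- the number of neighbours of `v` in `S` which lie in the part of `v` -/
noncomputable def sameIn (H : SimpleGraph V) (S : Finset V) (f : V → Fin 3) (v : V) : ℕ :=
  nb H (S.filter fun u => f u = f v) v

theorem sum_pow_in (H : SimpleGraph V) (S : Finset V) (v : V) (x : ℝ) :
    ∑ f : V → Fin 3, x ^ sameIn H S f v =
    3 ^ Fintype.card V * ((2 + x) / 3) ^ nb H S v := by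
  set g : Fin 3 → V → Fin 3 → ℝ := fun i u j =>
    if u = v then (if j = i then 1 else 0) else if (u ∈ S ∧ H.Adj v u) ∧ j = i then x else 1 with hg
  have h1 : ∀ f : V → Fin 3, x ^ sameIn H S f v = ∑ i, ∏ u, g i u (f u) := by
    intro f
    rw [Finset.sum_eq_single (f v)]
    · unfold sameIn nb
      have hS : (S.filter fun u => f u = f v).filter (fun u => H.Adj v u) =
          univ.filter fun u => (u ∈ S ∧ H.Adj v u) ∧ f u = f v := by
        ext u; simp only [Finset.mem_filter, Finset.mem_univ, true_and]; tauto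
      rw [hS, ← Finset.prod_const, Finset.prod_filter]
      refine Finset.prod_congr rfl fun u _ => ?_
      simp only [hg]
      by_cases hu : u = v
      · subst hu; simp
      · rw [if_neg hu]
    · intro i _ hi
      refine Finset.prod_eq_zero (Finset.mem_univ v) ?_
      simp [hg, Ne.symm hi]
    · simp
  have h2 : ∀ i u, ∑ j, g i u j =
      3 * (if u ∈ S ∧ H.Adj v u then (2 + x) / 3 else 1) * (if u = v then 1 / 3 else 1) := by
    intro i u
    simp only [hg]
    by_cases hu : u = v
    · subst hu; simp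
    · simp only [if_neg hu]
      by_cases h3 : u ∈ S ∧ H.Adj v u
      · simp only [h3, true_and, if_true]
        fin_cases i <;> simp [Fin.sum_univ_three] <;> ring
      · simp [h3]
  simp_rw [h1]
  rw [Finset.sum_comm]
  have h3 : ∀ i : Fin 3, ∑ f : V → Fin 3, ∏ u, g i u (f u) =
      3 ^ Fintype.card V * ((2 + x) / 3) ^ nb H S v * (1 / 3) := by
    intro i
    have h4 := Finset.prod_univ_sum (fun _ : V => (univ : Finset (Fin 3))) (fun u j => g i u j)
    rw [Fintype.piFinset_univ] at h4
    rw [← h4]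
    simp_rw [h2]
    rw [Finset.prod_mul_distrib, Finset.prod_mul_distrib, Finset.prod_const, Finset.card_univ]
    congr 1
    · congr 1
      unfold nb
      have hS : S.filter (fun u => H.Adj v u) = univ.filter fun u => u ∈ S ∧ H.Adj v u := by
        ext u; simp
      rw [hS, ← Finset.prod_const, Finset.prod_filter]
    · rw [Finset.prod_ite_eq' univ v]; simp
  simp_rw [h3]
  rw [Finset.sum_const, Finset.card_univ, Fintype.card_fin, nsmul_eq_mul]
  push_cast; ring

/-- the eighth root of `6 / 5` -/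
noncomputable def yy : ℝ := (6 / 5 : ℝ) ^ (1 / 8 : ℝ)

theorem yy_pow : yy ^ 8 = 6 / 5 := by
  unfold yy
  rw [← Real.rpow_natCast, ← Real.rpow_mul (by norm_num)]; norm_num

theorem yy_ge : 1 ≤ yy := Real.one_le_rpow (by norm_num) (by norm_num)

/-- the base of the second exponential bound -/
noncomputable def r3 : ℝ := 16 / 15 / yy ^ 3

theorem r3_pow (n d : ℕ) (hn : 1 ≤ n) (h : 270 * Real.log (2 * n) ≤ d) : r3 ^ d < 1 / (2 * n) := by
  have h0 : 0 < yy := lt_of_lt_of_le one_pos yy_ge
  have hr0 : 0 < r3 := by unfold r3; positivity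
  have hn0 : (1 : ℝ) ≤ n := by exact_mod_cast hn
  have hlog : Real.log r3 < - (1 / 270) := by
    have h1 : r3 ^ 8 = (16 / 15) ^ 8 / (6 / 5) ^ 3 := by
      unfold r3
      rw [div_pow, ← pow_mul, mul_comm 3 8, pow_mul, yy_pow]
    have h2 : 8 * Real.log r3 = Real.log ((16 / 15) ^ 8 / (6 / 5) ^ 3) := by
      rw [← h1, Real.log_pow]; push_cast; ring
    have h3 : Real.log ((16 / 15 : ℝ) ^ 8 / (6 / 5) ^ 3) ≤ (16 / 15 : ℝ) ^ 8 / (6 / 5) ^ 3 - 1 :=
      Real.log_le_sub_one_of_pos (by norm_num)
    have h4 : (16 / 15 : ℝ) ^ 8 / (6 / 5) ^ 3 - 1 < - (8 / 270) := by norm_num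
    linarith
  have h5 : 0 < Real.log (2 * n) := Real.log_pos (by linarith)
  rw [← Real.log_lt_log_iff (pow_pos hr0 _) (by positivity), Real.log_pow, one_div, Real.log_inv]
  have h6 : 270 * Real.log (2 * n) * Real.log r3 < 270 * Real.log (2 * n) * (-(1 / 270)) :=
    mul_lt_mul_of_pos_left hlog (by positivity)
  have h7 : (d : ℝ) * Real.log r3 ≤ 270 * Real.log (2 * n) * Real.log r3 :=
    mul_le_mul_of_nonpos_right h (by linarith)
  linarith

/-- a random partition is good for all vertices of `B` -/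
theorem exists_random_in (G H : SimpleGraph V) (B : Finset V)
    (hG : ∀ v ∈ B, 270 * Real.log (2 * Fintype.card V) ≤ nb G univ v)
    (hH : ∀ v ∈ B, 270 * Real.log (2 * Fintype.card V) ≤ nb H univ v) :
    ∃ f : V → Fin 3, ∀ v ∈ B, 8 * sameIn G B f v ≤ 3 * nb G univ v ∧
      8 * sameIn H B f v ≤ 3 * nb H univ v := by
  by_contra hcon
  push Not at hcon
  obtain ⟨v0, hv0, -⟩ := hcon fun _ => 0
  have hn : 1 ≤ Fintype.card V := Fintype.card_pos_iff.mpr ⟨v0⟩
  have hn0 : (0 : ℝ) < Fintype.card V := by exact_mod_cast hn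
  have h0 : 0 < yy := lt_of_lt_of_le one_pos yy_ge
  have hw : ∀ (K : SimpleGraph V) (f : V → Fin 3) (v : V), 3 * nb K univ v < 8 * sameIn K B f v →
      1 ≤ (6 / 5 : ℝ) ^ sameIn K B f v / yy ^ (3 * nb K univ v) := by
    intro K f v h
    rw [le_div_iff₀ (pow_pos h0 _), one_mul]
    calc yy ^ (3 * nb K univ v) ≤ yy ^ (8 * sameIn K B f v) := pow_le_pow_right₀ yy_ge h.le
      _ = (6 / 5) ^ sameIn K B f v := by rw [pow_mul, yy_pow]
  have h1 : ∀ f : V → Fin 3, 1 ≤ ∑ v ∈ B, ((6 / 5 : ℝ) ^ sameIn G B f v / yy ^ (3 * nb G univ v) +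
      (6 / 5 : ℝ) ^ sameIn H B f v / yy ^ (3 * nb H univ v)) := by
    intro f
    obtain ⟨v, hvB, hv⟩ := hcon f
    have hnn : ∀ v : V, 0 ≤ (6 / 5 : ℝ) ^ sameIn G B f v / yy ^ (3 * nb G univ v) +
      (6 / 5 : ℝ) ^ sameIn H B f v / yy ^ (3 * nb H univ v) := fun v => by positivity
    refine le_trans ?_ (Finset.single_le_sum (fun v _ => hnn v) hvB)
    rcases Nat.lt_or_ge (3 * nb G univ v) (8 * sameIn G B f v) with h2 | h2
    · have := hw G f v h2
      have : 0 ≤ (6 / 5 : ℝ) ^ sameIn H B f v / yy ^ (3 * nb H univ v) := by positivity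
      linarith
    · have := hw H f v (hv h2)
      have : 0 ≤ (6 / 5 : ℝ) ^ sameIn G B f v / yy ^ (3 * nb G univ v) := by positivity
      linarith
  have h2 : ((3 : ℝ) ^ Fintype.card V) ≤ ∑ f : V → Fin 3, ∑ v ∈ B,
      ((6 / 5 : ℝ) ^ sameIn G B f v / yy ^ (3 * nb G univ v) +
      (6 / 5 : ℝ) ^ sameIn H B f v / yy ^ (3 * nb H univ v)) := by
    calc ((3 : ℝ) ^ Fintype.card V) = ∑ _f : V → Fin 3, (1 : ℝ) := by simp
      _ ≤ _ := Finset.sum_le_sum fun f _ => h1 f
  have h3 : ∀ (K : SimpleGraph V) (v : V), ∑ f : V → Fin 3,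
      (6 / 5 : ℝ) ^ sameIn K B f v / yy ^ (3 * nb K univ v) ≤
      3 ^ Fintype.card V * r3 ^ nb K univ v := by
    intro K v
    rw [← Finset.sum_div, sum_pow_in, r3, div_pow (16 / 15 : ℝ), ← pow_mul, ← mul_div_assoc]
    apply div_le_div_of_nonneg_right _ (pow_pos h0 _).le
    apply mul_le_mul_of_nonneg_left _ (by positivity)
    rw [show (2 + 6 / 5 : ℝ) / 3 = 16 / 15 by norm_num]
    exact pow_le_pow_right₀ (by norm_num) (nb_mono K (Finset.subset_univ _) v)
  rw [Finset.sum_comm] at h2
  simp_rw [Finset.sum_add_distrib] at h2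
  have h5 : (3 : ℝ) ^ Fintype.card V < 3 ^ Fintype.card V := by
    calc (3 : ℝ) ^ Fintype.card V ≤ _ := h2
      _ ≤ ∑ v ∈ B, (3 ^ Fintype.card V * r3 ^ nb G univ v) +
          ∑ v ∈ B, (3 ^ Fintype.card V * r3 ^ nb H univ v) :=
          add_le_add (Finset.sum_le_sum fun v _ => h3 G v) (Finset.sum_le_sum fun v _ => h3 H v)
      _ = 3 ^ Fintype.card V * ∑ v ∈ B, (r3 ^ nb G univ v + r3 ^ nb H univ v) := by
          rw [← Finset.sum_add_distrib, Finset.mul_sum]
          exact Finset.sum_congr rfl fun v _ => by ring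
      _ < 3 ^ Fintype.card V * ∑ _v ∈ B, (1 / (2 * (Fintype.card V : ℝ)) +
          1 / (2 * (Fintype.card V : ℝ))) := by
          apply mul_lt_mul_of_pos_left _ (by positivity)
          refine Finset.sum_lt_sum_of_nonempty ⟨v0, hv0⟩ fun v hv => ?_
          exact add_lt_add (r3_pow _ _ hn (hG v hv)) (r3_pow _ _ hn (hH v hv))
      _ ≤ 3 ^ Fintype.card V * 1 := by
          apply mul_le_mul_of_nonneg_left _ (by positivity)
          rw [Finset.sum_const, nsmul_eq_mul]
          have h6 : (B.card : ℝ) ≤ Fintype.card V := by exact_mod_cast Finset.card_le_univ B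
          rw [show 1 / (2 * (Fintype.card V : ℝ)) + 1 / (2 * (Fintype.card V : ℝ)) =
            1 / (Fintype.card V : ℝ) by field_simp; norm_num, mul_one_div, div_le_one hn0]
          exact h6
      _ = 3 ^ Fintype.card V := mul_one _
  exact lt_irrefl _ h5

/-- a local optimum on the vertices outside of `B` -/
theorem local_opt (G : SimpleGraph V) (B : Finset V) (f : V → Fin 3) :
    ∃ g : V → Fin 3, (∀ v ∈ B, g v = f v) ∧ ∀ u, u ∉ B → 3 * same G g u ≤ nb G univ u := by
  -- the number of neighbours of `u` in the part `j`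
  set dd : (V → Fin 3) → V → Fin 3 → ℕ := fun g u j => nb G (univ.filter fun w => g w = j) u with hdd
  obtain ⟨g, hg, hmin⟩ := Finset.exists_min_image
    ((univ : Finset (V → Fin 3)).filter fun g => ∀ v ∈ B, g v = f v)
    (fun g => ∑ v, same G g v) ⟨f, by simp⟩
  rw [Finset.mem_filter] at hg
  refine ⟨g, hg.2, fun u hu => ?_⟩
  have key : ∀ j, dd g u (g u) ≤ dd g u j := by
    intro j
    have h1 := hmin (Function.update g u j) (Finset.mem_filter.mpr ⟨Finset.mem_univ _, fun v hv => by
      rw [Function.update_of_ne (show v ≠ u from fun h => hu (h ▸ hv))]; exact hg.2 v hv⟩)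
    -- the total number of monochromatic pairs
    have htot : ∀ k : V → Fin 3, (∀ w, w ≠ u → k w = g w) → ∑ v, same G k v =
        (∑ v ∈ univ.erase u, nb G ((univ.erase u).filter fun w => g w = g v) v) +
          2 * dd g u (k u) := by
      intro k hk
      rw [← Finset.add_sum_erase univ (fun v => same G k v) (Finset.mem_univ u)]
      have e1 : same G k u = dd g u (k u) := by
        simp only [hdd]
        unfold same nb
        congr 1; ext w
        simp only [Finset.mem_filter, Finset.mem_univ, true_and]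
        constructor
        · rintro ⟨h, h'⟩; rw [hk w h'.ne'] at h; exact ⟨h, h'⟩
        · rintro ⟨h, h'⟩; rw [← hk w h'.ne'] at h; exact ⟨h, h'⟩
      have e2 : ∀ v ∈ univ.erase u, same G k v =
          nb G ((univ.erase u).filter fun w => g w = g v) v +
            if G.Adj u v ∧ g v = k u then 1 else 0 := by
        intro v hv
        have hvu : v ≠ u := Finset.ne_of_mem_erase hv
        have e3 : (univ.filter fun w => k w = k v) =
            ((univ.erase u).filter fun w => g w = g v) ∪ (if k u = g v then {u} else ∅) := by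
          ext w
          simp only [Finset.mem_filter, Finset.mem_univ, true_and, Finset.mem_union, Finset.mem_erase,
            and_true]
          by_cases hw : w = u
          · subst hw
            rw [hk v hvu]
            split_ifs with h <;> simp [h]
          · rw [hk w hw, hk v hvu]
            split_ifs <;> simp [hw]
        unfold same
        rw [e3, nb_union]
        · congr 1
          split_ifs with h2 h3 h3
          · rw [nb_eq_sum, Finset.sum_singleton, if_pos (G.adj_comm _ _ |>.mp h3.1)]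
          · rw [nb_eq_sum, Finset.sum_singleton, if_neg]
            intro h4; exact h3 ⟨G.adj_comm _ _ |>.mp h4, h2.symm⟩
          · exact absurd h3.2.symm h2
          · simp [nb]
        · rw [Finset.disjoint_left]
          intro w hw hw'
          split_ifs at hw' with h2
          · have := Finset.mem_singleton.mp hw'
            subst this
            simp at hw
          · simp at hw'
      rw [Finset.sum_congr rfl e2, Finset.sum_add_distrib, e1]
      have e4 : ∑ v ∈ univ.erase u, (if G.Adj u v ∧ g v = k u then 1 else 0) = dd g u (k u) := by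
        rw [← Finset.card_filter]
        simp only [hdd]
        unfold nb
        congr 1; ext w
        simp only [Finset.mem_filter, Finset.mem_univ, true_and, Finset.mem_erase, and_true]
        constructor
        · rintro ⟨_, h, h'⟩; exact ⟨h', h⟩
        · rintro ⟨h, h'⟩; exact ⟨h'.ne', h', h⟩
      rw [e4]; ring
    rw [htot g fun _ _ => rfl, htot (Function.update g u j) fun w hw => Function.update_of_ne hw _ _,
      Function.update_self] at h1
    omega
  have hsum : ∑ j, dd g u j = nb G univ u := by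
    simp only [hdd]
    simp_rw [nb_eq_sum, Finset.sum_filter]
    rw [Finset.sum_comm]
    refine Finset.sum_congr rfl fun w _ => ?_
    simp
  have h2 : 3 * dd g u (g u) = ∑ _j : Fin 3, dd g u (g u) := by simp
  have h3 : same G g u = dd g u (g u) := rfl
  rw [h3, h2, ← hsum]
  exact Finset.sum_le_sum fun j _ => key j

/-- the graph `H` without the edges at the vertices of `L` -/
def cutOff (H : SimpleGraph V) (L : Finset V) : SimpleGraph V where
  Adj u v := H.Adj u v ∧ u ∉ L ∧ v ∉ L
  symm := ⟨fun _ _ h => ⟨h.1.symm, h.2.2, h.2.1⟩⟩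
  loopless := ⟨fun u h => H.loopless.irrefl u h.1⟩

theorem nb_cutOff (H : SimpleGraph V) (L S : Finset V) (v : V) (hv : v ∉ L) :
    nb (cutOff H L) S v = nb H (S \ L) v := by
  have h : ∀ w, (cutOff H L).Adj v w ↔ H.Adj v w ∧ w ∉ L := fun w =>
    ⟨fun h => ⟨h.1, h.2.2⟩, fun h => ⟨h.1, hv, h.2⟩⟩
  unfold nb
  congr 1; ext w
  rw [Finset.mem_filter, Finset.mem_filter, Finset.mem_sdiff, h]
  tauto

/-- few vertices of low degree in the neighbourhoods: the graphs -/
theorem exists_mixed (G H : SimpleGraph V) (L K : Finset V)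
    (hGH : ∀ (S : Finset V) (v : V), v ∈ S → nb G S v + nb H S v + 1 = S.card)
    (hL : ∀ u ∈ L, 100 * nb G univ u ≤ Fintype.card V)
    (hK : ∀ u ∈ K, 100 * nb H univ u ≤ Fintype.card V ∧ 4 * nb H L u ≤ nb H univ u)
    (hB : ∃ v, v ∉ L ∪ K)
    (hG : ∀ v, v ∉ L ∪ K → 270 * Real.log (2 * Fintype.card V) ≤ nb G univ v)
    (hH : ∀ v, v ∉ L ∪ K → 270 * Real.log (2 * Fintype.card V) ≤ nb H univ v)
    (hG' : ∀ v, v ∉ L ∪ K → 10 * nb G (L ∪ K) v ≤ nb G univ v)
    (hH' : ∀ v, v ∉ L ∪ K → 10 * nb H (L ∪ K) v ≤ nb H univ v) :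
    ∃ g : V → Fin 3, ∀ v, 2 * same G g v ≤ nb G univ v ∧ 2 * same H g v ≤ nb H univ v := by
  set M : Finset V := L ∪ K with hM
  obtain ⟨f, hf⟩ := exists_random_in G H Mᶜ (fun v hv => hG v (Finset.mem_compl.mp hv))
    (fun v hv => hH v (Finset.mem_compl.mp hv))
  -- first the vertices of `K`, without regard to `L`
  obtain ⟨g₁, hg₁f, hg₁⟩ := local_opt (cutOff H L) (K \ L)ᶜ f
  -- then the vertices of `L`
  obtain ⟨g, hgf', hg⟩ := local_opt G Lᶜ g₁
  have hgf : ∀ v ∈ Mᶜ, g v = f v := fun v hv => by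
    have h1 : v ∉ L := fun h => Finset.mem_compl.mp hv (Finset.mem_union_left _ h)
    have h2 : v ∉ K := fun h => Finset.mem_compl.mp hv (Finset.mem_union_right _ h)
    rw [hgf' v (Finset.mem_compl.mpr h1), hg₁f v (by simp [h2])]
  -- the vertices of `K`
  have hKK : ∀ v, v ∈ K → v ∉ L → 2 * same H g v ≤ nb H univ v := by
    intro v hvK hvL
    have h1 := hg₁ v (by simp [hvK, hvL])
    have h2 := (hK v hvK).2
    have e1 : ∀ S : Finset V, nb (cutOff H L) S v = nb H (S \ L) v := fun S =>
      nb_cutOff H L S v hvL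
    have h3 : same H g v ≤ same (cutOff H L) g₁ v + nb H L v := by
      unfold same
      rw [e1]
      have h4 : (univ.filter fun u => g u = g v) ⊆ ((univ.filter fun u => g₁ u = g₁ v) \ L) ∪ L := by
        intro u hu
        rw [Finset.mem_filter] at hu
        by_cases h : u ∈ L
        · exact Finset.mem_union_right _ h
        · refine Finset.mem_union_left _ (Finset.mem_sdiff.mpr ⟨Finset.mem_filter.mpr
            ⟨Finset.mem_univ _, ?_⟩, h⟩)
          rw [← hgf' u (Finset.mem_compl.mpr h), ← hgf' v (Finset.mem_compl.mpr hvL)]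
          exact hu.2
      exact (nb_mono H h4 v).trans (le_of_eq (nb_union H Finset.sdiff_disjoint v))
    rw [e1] at h1
    have h5 := nb_sdiff H (Finset.subset_univ L) v
    omega
  have hsplit : ∀ (K' : SimpleGraph V) v, v ∉ M → same K' g v ≤ sameIn K' Mᶜ f v + nb K' M v := by
    intro K' v hv
    unfold same sameIn
    have h1 : (univ.filter fun u => g u = g v) ⊆ (Mᶜ.filter fun u => f u = f v) ∪ M := by
      intro u hu
      rw [Finset.mem_filter] at hu
      by_cases h : u ∈ M
      · exact Finset.mem_union_right _ h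
      · refine Finset.mem_union_left _ (Finset.mem_filter.mpr ⟨Finset.mem_compl.mpr h, ?_⟩)
        rw [← hgf u (Finset.mem_compl.mpr h), ← hgf v (Finset.mem_compl.mpr hv)]
        exact hu.2
    refine (nb_mono K' h1 v).trans (le_of_eq (nb_union K' ?_ v))
    rw [Finset.disjoint_left]
    intro u hu hu'
    exact Finset.mem_compl.mp (Finset.mem_filter.mp hu).1 hu'
  obtain ⟨v0, hv0⟩ := hB
  have hn : 1 ≤ Fintype.card V := Fintype.card_pos_iff.mpr ⟨v0⟩
  -- `n` is not small
  have hn5 : 5 ≤ Fintype.card V := by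
    have h1 := hG v0 hv0
    have h2 : nb G univ v0 ≤ Fintype.card V := by
      have := nb_le_card G univ v0; rwa [Finset.card_univ] at this
    have h3 : (nb G univ v0 : ℝ) ≤ Fintype.card V := by exact_mod_cast h2
    have h4 : Real.log 2 ≤ Real.log (2 * Fintype.card V) := by
      apply Real.log_le_log (by norm_num)
      have : (1 : ℝ) ≤ Fintype.card V := by exact_mod_cast hn
      linarith
    have h5 := Real.log_two_gt_d9
    have h6 : (5 : ℝ) ≤ Fintype.card V := by linarith
    exact_mod_cast h6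
  -- the sizes
  have hLc : 10 * M.card + 1 ≤ Fintype.card V := by
    have h1 := hGH (insert v0 M) v0 (Finset.mem_insert_self _ _)
    rw [Finset.card_insert_of_notMem hv0] at h1
    have h2 : ∀ K : SimpleGraph V, nb K (insert v0 M) v0 = nb K M v0 := by
      intro K; unfold nb; congr 1; ext w
      simp only [Finset.mem_filter, Finset.mem_insert]
      constructor
      · rintro ⟨h | h, h'⟩
        · exact absurd h h'.ne'
        · exact ⟨h, h'⟩
      · rintro ⟨h, h'⟩; exact ⟨Or.inr h, h'⟩
    rw [h2, h2] at h1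
    have h3 := hG' v0 hv0
    have h4 := hH' v0 hv0
    have h5 := hGH univ v0 (Finset.mem_univ _)
    rw [Finset.card_univ] at h5
    omega
  have hpart : ∀ i : Fin 3, 8 * ((univ.filter fun u => g u = i) \ M).card ≤ 3 * Fintype.card V + 5 := by
    intro i
    rcases ((univ.filter fun u => g u = i) \ M).eq_empty_or_nonempty with h | ⟨v, hv⟩
    · rw [h]; simp
    · have hv2 := Finset.mem_sdiff.mp hv
      have hgi : g v = i := (Finset.mem_filter.mp hv2.1).2
      have e1 : ((univ.filter fun u => g u = i) \ M) = Mᶜ.filter fun u => f u = f v := by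
        ext u
        simp only [Finset.mem_sdiff, Finset.mem_filter, Finset.mem_univ, true_and, Finset.mem_compl]
        constructor
        · rintro ⟨h, h'⟩
          refine ⟨h', ?_⟩
          rw [← hgf u (Finset.mem_compl.mpr h'), ← hgf v (Finset.mem_compl.mpr hv2.2), h, hgi]
        · rintro ⟨h, h'⟩
          refine ⟨?_, h⟩
          rw [← hgf u (Finset.mem_compl.mpr h), ← hgf v (Finset.mem_compl.mpr hv2.2)] at h'
          rw [h', hgi]
      have h1 := hGH (Mᶜ.filter fun u => f u = f v) v (by rw [← e1]; exact hv)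
      have h2 := hf v (Finset.mem_compl.mpr hv2.2)
      have h3 := hGH univ v (Finset.mem_univ _)
      rw [Finset.card_univ] at h3
      rw [e1]
      unfold sameIn at h2
      omega
  refine ⟨g, fun v => ?_⟩
  by_cases hv : v ∈ M
  · have h2 := hGH (univ.filter fun u => g u = g v) v (by simp)
    have h3 := hGH univ v (Finset.mem_univ _)
    rw [Finset.card_univ] at h3
    have h4 := hpart (g v)
    have h5 : (univ.filter fun u => g u = g v).card ≤
        ((univ.filter fun u => g u = g v) \ M).card + M.card := Finset.card_le_card_sdiff_add_card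
    by_cases hvL : v ∈ L
    · have h1 := hg v (fun h => Finset.mem_compl.mp h hvL)
      refine ⟨by omega, ?_⟩
      have h6 := hL v hvL
      unfold same
      omega
    · have hvK : v ∈ K := (Finset.mem_union.mp hv).resolve_left hvL
      have h1 := hKK v hvK hvL
      refine ⟨?_, h1⟩
      have h6 := (hK v hvK).1
      unfold same
      omega
  · have h1 := hf v (Finset.mem_compl.mpr hv)
    have h2 := hsplit G v hv
    have h3 := hsplit H v hv
    have h4 := hG' v hv
    have h5 := hH' v hv
    exact ⟨by omega, by omega⟩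

/-! ### the statements for edge colourings -/

/-- `colDeg c a X v`: the number of edges `vx` of colour `a` with `x ∈ X` in the complete graph on
`V` with the edge colouring `c`; the values of `c` on the diagonal are not used -/
noncomputable def colDeg {V : Type*} (c : Sym2 V → Fin 2) (a : Fin 2) (X : Set V) (v : V) : ℕ :=
  {x | x ∈ X ∧ x ≠ v ∧ c s(v, x) = a}.ncard

/-- the partition into the sets `f ⁻¹ {i}` is a majority partition: for each colour `a`, every
vertex `v` has at least as many edges of the colour `a` to the other parts as to its own part -/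
def IsMajority {V : Type*} (c : Sym2 V → Fin 2) {k : ℕ} (f : V → Fin k) : Prop :=
  ∀ (a : Fin 2) (v : V), colDeg c a {x | f x = f v} v ≤ colDeg c a {x | f x ≠ f v} v

/-- the graph of the edges of colour `a` -/
def colGraph {V : Type*} (c : Sym2 V → Fin 2) (a : Fin 2) : SimpleGraph V where
  Adj u v := u ≠ v ∧ c s(u, v) = a
  symm := ⟨fun u v h => ⟨h.1.symm, by rw [Sym2.eq_swap]; exact h.2⟩⟩
  loopless := ⟨fun _ h => h.1 rfl⟩

theorem colDeg_eq (c : Sym2 V → Fin 2) (a : Fin 2) (X : Finset V) (v : V) :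
    colDeg c a X v = nb (colGraph c a) X v := by
  unfold colDeg nb
  rw [← Set.ncard_coe_finset]
  congr 1
  ext x
  simp only [Finset.coe_filter, colGraph, Finset.mem_coe, ne_comm (a := v), Set.mem_ofPred_eq]

theorem colDeg_univ (c : Sym2 V → Fin 2) (a : Fin 2) (v : V) :
    colDeg c a Set.univ v = nb (colGraph c a) univ v := by
  rw [← colDeg_eq]; simp

/-- it is enough to bound the number of neighbours in the own part -/
theorem isMajority_of (c : Sym2 V → Fin 2) (f : V → Fin 3)
    (h : ∀ a v, 2 * same (colGraph c a) f v ≤ nb (colGraph c a) univ v) : IsMajority c f := by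
  intro a v
  have h1 : {x | f x = f v} = ((univ.filter fun x => f x = f v : Finset V) : Set V) := by simp
  have h2 : {x | f x ≠ f v} = ((univ \ univ.filter fun x => f x = f v : Finset V) : Set V) := by
    ext x; simp
  rw [h1, h2, colDeg_eq, colDeg_eq]
  have h3 := nb_sdiff (colGraph c a) (Finset.subset_univ (univ.filter fun x => f x = f v)) v
  have h4 := h a v
  unfold same at h4
  omega

/-- the two colours are complementary -/
theorem nb_add (c : Sym2 V → Fin 2) (a b : Fin 2) (hab : a ≠ b) (S : Finset V) (v : V) (hv : v ∈ S) :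
    nb (colGraph c a) S v + nb (colGraph c b) S v + 1 = S.card := by
  have h1 : nb (colGraph c a) S v + nb (colGraph c b) S v = (S.erase v).card := by
    unfold nb
    rw [← Finset.card_union_of_disjoint]
    · congr 1
      ext x
      rw [Finset.mem_union, Finset.mem_filter, Finset.mem_filter, Finset.mem_erase]
      change (x ∈ S ∧ v ≠ x ∧ c s(v, x) = a) ∨ (x ∈ S ∧ v ≠ x ∧ c s(v, x) = b) ↔ _
      have : c s(v, x) = a ∨ c s(v, x) = b := by omega
      constructor
      · rintro (⟨h, h', -⟩ | ⟨h, h', -⟩) <;> exact ⟨h'.symm, h⟩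
      · rintro ⟨h, h'⟩
        rcases this with h2 | h2
        · exact Or.inl ⟨h', h.symm, h2⟩
        · exact Or.inr ⟨h', h.symm, h2⟩
    · rw [Finset.disjoint_left]
      intro x h h'
      have h1 := (Finset.mem_filter.mp h).2.2
      have h2 := (Finset.mem_filter.mp h').2.2
      exact hab (h1.symm.trans h2)
  rw [h1, Finset.card_erase_of_mem hv]
  have := Finset.card_pos.mpr ⟨v, hv⟩
  omega

theorem isMajority_of_aim (c : Sym2 V → Fin 2) (a : Fin 2) (h : Aim (colGraph c a)) :
    ∃ f : V → Fin 3, IsMajority c f := by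
  obtain ⟨A, B, C, hAB, hC, hu, hA, hB, hC'⟩ := h
  set f : V → Fin 3 := fun v => if v ∈ A then 0 else if v ∈ B then 1 else 2 with hf
  refine ⟨f, isMajority_of c f ?_⟩
  have key : ∀ v, ∃ S : Finset V, v ∈ S ∧ Ok (colGraph c a) S ∧ (univ.filter fun u => f u = f v) = S := by
    intro v
    rw [Finset.disjoint_left] at hAB hC
    have hall : ∀ u, u ∈ A ∨ u ∈ B ∨ u ∈ C := fun u => by
      have := (Finset.ext_iff.mp hu u).mpr (Finset.mem_univ u)
      simpa [Finset.mem_union, or_assoc] using this
    have f0 : ∀ u, f u = 0 ↔ u ∈ A := fun u => by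
      simp only [hf]; split_ifs <;> simp_all
    have f1 : ∀ u, f u = 1 ↔ u ∈ B := fun u => by
      simp only [hf]; split_ifs with h1 h2
      · simp only [Fin.isValue, zero_ne_one, false_iff]; exact hAB h1
      · simp [h2]
      · simp only [Fin.isValue, h2, iff_false]; decide
    have f2 : ∀ u, f u = 2 ↔ u ∈ C := fun u => by
      simp only [hf]; split_ifs with h1 h2
      · refine ⟨fun h => absurd h (by decide), fun h => absurd h (hC (Finset.mem_union_left _ h1))⟩
      · refine ⟨fun h => absurd h (by decide), fun h => absurd h (hC (Finset.mem_union_right _ h2))⟩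
      · refine ⟨fun _ => ?_, fun _ => rfl⟩
        rcases hall u with h | h | h
        · exact absurd h h1
        · exact absurd h h2
        · exact h
    rcases hall v with h | h | h
    · refine ⟨A, h, hA, ?_⟩
      rw [(f0 v).mpr h]; ext u; simp [f0]
    · refine ⟨B, h, hB, ?_⟩
      rw [(f1 v).mpr h]; ext u; simp [f1]
    · refine ⟨C, h, hC', ?_⟩
      rw [(f2 v).mpr h]; ext u; simp [f2]
  intro b v
  obtain ⟨S, hvS, hS, hfS⟩ := key v
  have h1 := hS v hvS
  unfold same
  rw [hfS]
  by_cases hb : b = a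
  · subst hb; exact h1.1
  · have h2 := nb_add c a b (Ne.symm hb) S v hvS
    have h3 := nb_add c a b (Ne.symm hb) univ v (Finset.mem_univ v)
    rw [Finset.card_univ] at h3
    omega

theorem log_bound (n : ℕ) (hn : 20000 ≤ n) : 1800 * Real.log (2 * n) ≤ n := by
  have hn0 : (20000 : ℝ) ≤ n := by exact_mod_cast hn
  have h1 : Real.log (2 * n) = Real.log 40000 + Real.log (n / 20000) := by
    rw [← Real.log_mul (by norm_num) (by positivity)]; congr 1; ring
  have h2 : Real.log (n / 20000) ≤ n / 20000 - 1 := Real.log_le_sub_one_of_pos (by positivity)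
  have h3 : Real.log 40000 ≤ 16 * Real.log 2 := by
    rw [← Real.log_rpow (by norm_num)]
    exact Real.log_le_log (by norm_num) (by norm_num)
  have h4 := Real.log_two_lt_d9
  rw [h1]
  linarith

/-- **Majority 3-partitions.** Let the edges of the complete graph on the finite set `V` be coloured
with two colours, `n = |V|`. There is a majority 3-partition if one of the following holds.

(1) In one colour all degrees are at most `n / 100`.
(2) There are sets `L`, `K` with `L ∪ K ≠ V` such that, for the two colours `a`, `b`: each vertex of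
`L` has at most `n / 100` edges of the colour `a`; each vertex of `K` has at most `n / 100` edges of
the colour `b`, and at most a quarter of them go to `L`; each vertex outside of `L ∪ K` has in both
colours at least `270 log (2n)` edges, and at most one tenth of them go to `L ∪ K`.
(3) In both colours all degrees are at least `18 log (2n)`.
(4) In each colour the maximum degree times `1800 log (2n)` is at most `n` times the minimum degree.
(5) In one colour all degrees are equal, and `n ≥ 20000`. -/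
theorem result {V : Type*} [Finite V] (c : Sym2 V → Fin 2)
    (h : (∃ a, ∀ v, 100 * colDeg c a Set.univ v ≤ Nat.card V) ∨
      (∃ (a b : Fin 2) (L K : Set V), a ≠ b ∧ L ∪ K ≠ Set.univ ∧
        (∀ u ∈ L, 100 * colDeg c a Set.univ u ≤ Nat.card V) ∧
        (∀ u ∈ K, 100 * colDeg c b Set.univ u ≤ Nat.card V ∧
          4 * colDeg c b L u ≤ colDeg c b Set.univ u) ∧
        ∀ v ∉ L ∪ K, ∀ d, 270 * Real.log (2 * Nat.card V) ≤ colDeg c d Set.univ v ∧
          10 * colDeg c d (L ∪ K) v ≤ colDeg c d Set.univ v) ∨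
      (∀ a v, 18 * Real.log (2 * Nat.card V) ≤ colDeg c a Set.univ v) ∨
      (∀ a u v, 1800 * Real.log (2 * Nat.card V) * colDeg c a Set.univ u ≤
        Nat.card V * colDeg c a Set.univ v) ∨
      (20000 ≤ Nat.card V ∧ ∃ a, ∀ u v, colDeg c a Set.univ u = colDeg c a Set.univ v)) :
    ∃ f : V → Fin 3, IsMajority c f := by
  have : Fintype V := Fintype.ofFinite V
  rw [Nat.card_eq_fintype_card] at h
  simp_rw [colDeg_univ] at h
  have p0 : (∃ a, ∀ v, 100 * nb (colGraph c a) univ v ≤ Fintype.card V) →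
      ∃ f : V → Fin 3, IsMajority c f := by
    rintro ⟨a, ha⟩
    refine isMajority_of_aim c a (aim_of_small _ (Fintype.card V / 100) (fun v => ?_) (by omega))
    have := ha v
    omega
  have p1 : (∃ (a b : Fin 2) (L K : Set V), a ≠ b ∧ L ∪ K ≠ Set.univ ∧
        (∀ u ∈ L, 100 * nb (colGraph c a) univ u ≤ Fintype.card V) ∧
        (∀ u ∈ K, 100 * nb (colGraph c b) univ u ≤ Fintype.card V ∧
          4 * colDeg c b L u ≤ nb (colGraph c b) univ u) ∧
        ∀ v ∉ L ∪ K, ∀ d, 270 * Real.log (2 * Fintype.card V) ≤ nb (colGraph c d) univ v ∧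
          10 * colDeg c d (L ∪ K) v ≤ nb (colGraph c d) univ v) →
      ∃ f : V → Fin 3, IsMajority c f := by
    rintro ⟨a, b, L, K, hab, hne, hL, hK, hB⟩
    have hLf : ∀ (b : Fin 2) (L : Set V) v, colDeg c b L v = nb (colGraph c b) L.toFinset v :=
      fun b L v => by rw [← colDeg_eq]; simp
    simp_rw [hLf, Set.toFinset_union] at hB
    simp_rw [hLf] at hK
    have hmem : ∀ v, v ∉ L.toFinset ∪ K.toFinset → v ∉ L ∪ K := fun v hv => by
      simpa using hv
    obtain ⟨g, hg⟩ := exists_mixed (colGraph c a) (colGraph c b) L.toFinset K.toFinset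
      (fun S v hv => nb_add c a b hab S v hv) (fun u hu => hL u (by simpa using hu))
      (fun u hu => hK u (by simpa using hu))
      (by
        by_contra hcon
        push Not at hcon
        refine hne (Set.eq_univ_of_forall fun v => ?_)
        have := hcon v
        simpa using this)
      (fun v hv => (hB v (hmem v hv) a).1) (fun v hv => (hB v (hmem v hv) b).1)
      (fun v hv => (hB v (hmem v hv) a).2) (fun v hv => (hB v (hmem v hv) b).2)
    refine ⟨g, isMajority_of c g fun d v => ?_⟩
    rcases (show d = a ∨ d = b by omega) with h | h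
    · rw [h]; exact (hg v).1
    · rw [h]; exact (hg v).2
  have p2 : (∀ a v, 18 * Real.log (2 * Fintype.card V) ≤ nb (colGraph c a) univ v) →
      ∃ f : V → Fin 3, IsMajority c f := by
    intro h
    obtain ⟨f, hf⟩ := exists_random_log (colGraph c 0) (colGraph c 1) (h 0) (h 1)
    refine ⟨f, isMajority_of c f fun a v => ?_⟩
    fin_cases a
    · exact (hf v).1
    · exact (hf v).2
  have p3 : (∀ a u v, 1800 * Real.log (2 * Fintype.card V) * nb (colGraph c a) univ u ≤
        Fintype.card V * nb (colGraph c a) univ v) → ∃ f : V → Fin 3, IsMajority c f := by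
    intro h
    by_cases h1 : ∃ a, ∀ v, 100 * nb (colGraph c a) univ v ≤ Fintype.card V
    · exact p0 h1
    · push Not at h1
      apply p2
      intro a v
      obtain ⟨u, hu⟩ := h1 a
      have h2 := h a u v
      have h3 : (Fintype.card V : ℝ) < 100 * nb (colGraph c a) univ u := by exact_mod_cast hu
      have h4 : (0 : ℝ) < Fintype.card V := by
        exact_mod_cast Fintype.card_pos_iff.mpr ⟨v⟩
      by_contra hcon
      rw [not_le] at hcon
      have h6 : (0 : ℝ) < Real.log (2 * Fintype.card V) := by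
        have : (0 : ℝ) ≤ nb (colGraph c a) univ v := by positivity
        linarith
      have h7 : 18 * Real.log (2 * Fintype.card V) * Fintype.card V <
          18 * Real.log (2 * Fintype.card V) * (100 * nb (colGraph c a) univ u) :=
        mul_lt_mul_of_pos_left h3 (by positivity)
      have h8 : (Fintype.card V : ℝ) * nb (colGraph c a) univ v <
          Fintype.card V * (18 * Real.log (2 * Fintype.card V)) := mul_lt_mul_of_pos_left hcon h4
      nlinarith
  rcases h with h | h | h | h | ⟨hn, d, hreg⟩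
  · exact p0 h
  · exact p1 h
  · exact p2 h
  · exact p3 h
  apply p3
  intro a u v
  have h0 : nb (colGraph c a) univ u = nb (colGraph c a) univ v := by
    by_cases had : a = d
    · rw [had]; exact hreg u v
    · have h1 := hreg u v
      have h2 := nb_add c a d had univ u (Finset.mem_univ u)
      have h3 := nb_add c a d had univ v (Finset.mem_univ v)
      omega
  rw [h0]
  exact mul_le_mul_of_nonneg_right (log_bound _ hn) (by positivity)

end Pool.Agent.Results.MP_e6d6ae_co.SparseOrLog
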